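import Pool.Agent.Helper89.TwoBridge.Final

/-!
The Conway polynomials of two-bridge links in the basis of Fibonacci polynomials.
-/

set_option autoImplicit false

open Polynomial

namespace Pool.Agent.Helper89.TwoBridge

/-- the matrix `z D + U - Uᵀ` -/
noncomputable def cmat (m : ℕ) (c : ℕ → ℤ) : Matrix (Fin m) (Fin m) ℤ[X] :=
  Matrix.of fun i j => if i = j then C (c i) * X else if (i : ℕ) + 1 = j then 1 else
    if (j : ℕ) + 1 = i then -1 else 0

lemma conway_eq (m : ℕ) (c : ℕ → ℤ) : conway (fun i : Fin m => c i) = (cmat m c).det := rfl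

lemma cdet_zero (c : ℕ → ℤ) : (cmat 0 c).det = 1 := Matrix.det_fin_zero

lemma cdet_one (c : ℕ → ℤ) : (cmat 1 c).det = C (c 0) * X := by
  rw [Matrix.det_fin_one]
  simp [cmat]

lemma cmat_sub (m : ℕ) (c : ℕ → ℤ) :
    (cmat (m + 1) c).submatrix Fin.succ Fin.succ = cmat m (fun i => c (i + 1)) := by
  ext1 i j
  simp only [Matrix.submatrix_apply, cmat, Matrix.of_apply, Fin.succ_inj, Fin.val_succ]
  by_cases hij : i = j
  · rw [if_pos hij, if_pos hij]
  · rw [if_neg hij, if_neg hij]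
    have e1 : ((i : ℕ) + 1 + 1 = (j : ℕ) + 1) ↔ ((i : ℕ) + 1 = j) := by omega
    have e2 : ((j : ℕ) + 1 + 1 = (i : ℕ) + 1) ↔ ((j : ℕ) + 1 = i) := by omega
    simp only [e1, e2]

lemma cdet_rec (m : ℕ) (c : ℕ → ℤ) : (cmat (m + 2) c).det =
    C (c 0) * X * (cmat (m + 1) (fun i => c (i + 1))).det + (cmat m (fun i => c (i + 2))).det := by
  rw [Matrix.det_succ_row_zero, Fin.sum_univ_succ, Fin.sum_univ_succ]
  have h0 : ∀ j : Fin m, (-1 : ℤ[X]) ^ ((j.succ.succ : Fin (m + 2)) : ℕ) * cmat (m + 2) c 0 j.succ.succ *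
      ((cmat (m + 2) c).submatrix Fin.succ (Fin.succAbove j.succ.succ)).det = 0 := by
    intro j
    have : cmat (m + 2) c 0 j.succ.succ = 0 := by
      simp only [cmat, Matrix.of_apply]
      have h1 : ¬ (0 : Fin (m + 2)) = j.succ.succ := (Fin.succ_ne_zero _).symm
      rw [if_neg h1]
      have h2 : ¬ ((0 : Fin (m + 2)) : ℕ) + 1 = ((j.succ.succ : Fin (m + 2)) : ℕ) := by
        simp only [Fin.val_succ, Fin.val_zero]; omega
      have h3 : ¬ ((j.succ.succ : Fin (m + 2)) : ℕ) + 1 = ((0 : Fin (m + 2)) : ℕ) := by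
        simp only [Fin.val_zero]; omega
      rw [if_neg h2, if_neg h3]
    rw [this]
    ring
  rw [Finset.sum_eq_zero (fun j _ => h0 j), add_zero]
  have h1 : cmat (m + 2) c 0 0 = C (c 0) * X := by simp [cmat]
  have h2 : cmat (m + 2) c 0 (Fin.succ 0) = 1 := by
    simp [cmat]
  have h3 : (cmat (m + 2) c).submatrix Fin.succ (Fin.succAbove 0) = cmat (m + 1) (fun i => c (i + 1)) := by
    rw [← cmat_sub]
    congr 1
  have h4 : ((cmat (m + 2) c).submatrix Fin.succ (Fin.succAbove (Fin.succ 0))).det =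
      - (cmat m (fun i => c (i + 2))).det := by
    rw [Matrix.det_succ_column_zero, Fin.sum_univ_succ]
    have h5 : ∀ i : Fin m, (-1 : ℤ[X]) ^ ((i.succ : Fin (m + 1)) : ℕ) *
        ((cmat (m + 2) c).submatrix Fin.succ (Fin.succAbove (Fin.succ 0))) i.succ 0 *
        (((cmat (m + 2) c).submatrix Fin.succ (Fin.succAbove (Fin.succ 0))).submatrix
          (Fin.succAbove i.succ) Fin.succ).det = 0 := by
      intro i
      have : ((cmat (m + 2) c).submatrix Fin.succ (Fin.succAbove (Fin.succ 0))) i.succ 0 = 0 := by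
        simp only [Matrix.submatrix_apply]
        have e1 : (Fin.succ 0 : Fin (m + 2)).succAbove 0 = 0 := by
          simp
        rw [e1]
        simp only [cmat, Matrix.of_apply]
        have h1 : ¬ (i.succ.succ : Fin (m + 2)) = 0 := Fin.succ_ne_zero _
        rw [if_neg h1]
        have h2 : ¬ ((i.succ.succ : Fin (m + 2)) : ℕ) + 1 = ((0 : Fin (m + 2)) : ℕ) := by
          simp only [Fin.val_zero]; omega
        have h3 : ¬ ((0 : Fin (m + 2)) : ℕ) + 1 = ((i.succ.succ : Fin (m + 2)) : ℕ) := by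
          simp only [Fin.val_succ, Fin.val_zero]; omega
        rw [if_neg h2, if_neg h3]
      rw [this]
      ring
    rw [Finset.sum_eq_zero (fun i _ => h5 i), add_zero]
    have e1 : ((cmat (m + 2) c).submatrix Fin.succ (Fin.succAbove (Fin.succ 0))) 0 0 = -1 := by
      simp only [Matrix.submatrix_apply]
      have e1 : (Fin.succ 0 : Fin (m + 2)).succAbove 0 = 0 := by
        simp
      rw [e1]
      simp only [cmat, Matrix.of_apply]
      have h1 : ¬ (Fin.succ 0 : Fin (m + 2)) = 0 := Fin.succ_ne_zero _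
      rw [if_neg h1]
      simp
    have e2 : (((cmat (m + 2) c).submatrix Fin.succ (Fin.succAbove (Fin.succ 0))).submatrix
          (Fin.succAbove 0) Fin.succ) = cmat m (fun i => c (i + 2)) := by
      have e3 : cmat m (fun i => c (i + 2)) = ((cmat (m + 2) c).submatrix Fin.succ Fin.succ).submatrix Fin.succ Fin.succ := by
        rw [cmat_sub, cmat_sub]
      rw [e3]
      ext1 i j
      simp only [Matrix.submatrix_apply]
      congr 2
    rw [e1, e2]
    simp
  rw [h1, h2, h3, h4]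
  simp

/-- the Fibonacci polynomials for all integer indices, `f (-n) = (-1)^(n+1) f n` -/
noncomputable def fz (n : ℤ) : ℤ[X] := if 0 ≤ n then fibPoly n.toNat else
  (-1) ^ ((-n).toNat + 1) * fibPoly (-n).toNat

lemma fz_nat (n : ℕ) : fz n = fibPoly n := by
  unfold fz
  rw [if_pos (Int.natCast_nonneg n), Int.toNat_natCast]

lemma fz_neg_nat (n : ℕ) : fz (-n) = (-1) ^ (n + 1) * fibPoly n := by
  rcases Nat.eq_zero_or_pos n with h | h
  · subst h
    simp [fz, fibPoly]
  · unfold fz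
    rw [if_neg (by omega), neg_neg, Int.toNat_natCast]

lemma fz_rec (n : ℤ) : X * fz n = fz (n + 1) - fz (n - 1) := by
  rcases lt_trichotomy n 0 with hn | hn | hn
  · obtain ⟨k, hk⟩ : ∃ k : ℕ, n = -((k + 1 : ℕ) : ℤ) := ⟨(-n - 1).toNat, by push_cast; omega⟩
    subst hk
    have e1 : -((k + 1 : ℕ) : ℤ) + 1 = -(k : ℤ) := by push_cast; ring
    have e2 : -((k + 1 : ℕ) : ℤ) - 1 = -((k + 2 : ℕ) : ℤ) := by push_cast; ring
    rw [e1, e2, fz_neg_nat, fz_neg_nat, fz_neg_nat, fibPoly]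
    ring
  · subst hn
    have e1 : (0 : ℤ) + 1 = ((1 : ℕ) : ℤ) := by norm_num
    have e2 : (0 : ℤ) - 1 = -((1 : ℕ) : ℤ) := by norm_num
    have e3 : (0 : ℤ) = ((0 : ℕ) : ℤ) := by norm_num
    rw [e1, e2, fz_nat, fz_neg_nat]
    rw [e3, fz_nat]
    simp [fibPoly]
  · obtain ⟨k, hk⟩ : ∃ k : ℕ, n = ((k + 1 : ℕ) : ℤ) := ⟨(n - 1).toNat, by push_cast; omega⟩
    subst hk
    have e1 : ((k + 1 : ℕ) : ℤ) + 1 = ((k + 2 : ℕ) : ℤ) := by push_cast; ring
    have e2 : ((k + 1 : ℕ) : ℤ) - 1 = (k : ℤ) := by push_cast; ring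
    rw [e1, e2, fz_nat, fz_nat, fz_nat, fibPoly]
    ring

lemma F_vanish (m : ℕ) (c : ℕ → ℤ) {n : ℤ} (hn : (m : ℤ) + 1 < n) : F m c n = 0 := by
  induction m using Nat.strong_induction_on generalizing c n with
  | _ m ih =>
    match m with
    | 0 =>
      simp only [F, delta, Nat.cast_zero] at *
      split_ifs <;> omega
    | 1 =>
      simp only [F, delta, Nat.cast_one] at *
      rw [if_neg (by omega), if_neg (by omega), if_neg (by omega), if_neg (by omega)]
      ring
    | m + 2 =>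
      push_cast at hn
      simp only [F]
      rw [ih (m + 1) (by omega) _ (n := n - 1) (by push_cast; linarith),
        ih (m + 1) (by omega) _ (n := n + 1) (by push_cast; linarith), ih m (by omega) _ (n := n) (by linarith)]
      ring

lemma F_neg (m : ℕ) (c : ℕ → ℤ) (n : ℤ) : F m c (-n) = - F m c n := by
  induction m using Nat.strong_induction_on generalizing c n with
  | _ m ih =>
    match m with
    | 0 =>
      simp only [F, delta]
      split_ifs <;> omega
    | 1 =>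
      simp only [F, delta]
      have : ((if -n - 1 = 1 then (1:ℤ) else if -n - 1 = -1 then -1 else 0) +
          if -n + 1 = 1 then 1 else if -n + 1 = -1 then -1 else 0) =
          -((if n - 1 = 1 then (1:ℤ) else if n - 1 = -1 then -1 else 0) +
          if n + 1 = 1 then 1 else if n + 1 = -1 then -1 else 0) := by
        split_ifs <;> omega
      rw [this]
      ring
    | m + 2 =>
      simp only [F]
      have h1 := ih (m + 1) (by omega) (fun i => c (i + 1)) (n + 1)
      have h2 := ih (m + 1) (by omega) (fun i => c (i + 1)) (n - 1)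
      have h3 := ih m (by omega) (fun i => c (i + 2)) n
      have e1 : -(n + 1) = -n - 1 := by ring
      have e2 : -(n - 1) = -n + 1 := by ring
      rw [e1] at h1
      rw [e2] at h2
      rw [h1, h2, h3]
      ring

/-- the term of the expansion -/
noncomputable def term (m : ℕ) (c : ℕ → ℤ) (i : ℤ) : ℤ[X] := C (F m c (m + 1 - 2 * i)) * fz (m + 1 - 2 * i)

/-- the alternating sign `(-1)^i` for integers -/
noncomputable def sgn (i : ℤ) : ℤ[X] := if Even i then 1 else -1

lemma sgn_succ (i : ℤ) : sgn (i + 1) = - sgn i := by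
  unfold sgn
  by_cases h : Even i
  · rw [if_pos h, if_neg (by rw [Int.not_even_iff_odd]; exact h.add_one)]
  · have h' := h
    rw [Int.not_even_iff_odd] at h'
    rw [if_neg h, if_pos h'.add_one, neg_neg]

lemma sgn_nat (i : ℕ) : sgn i = (-1) ^ i := by
  induction i with
  | zero => simp [sgn]
  | succ i ih =>
    push_cast
    rw [sgn_succ, ih, pow_succ]
    ring

/-- the full sum over all integers, as a finite sum over a large interval -/
noncomputable def full (m : ℕ) (c : ℕ → ℤ) (K : ℕ) : ℤ[X] :=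
  ∑ i ∈ Finset.Icc (-(K : ℤ)) K, sgn i * term m c i

lemma F_support (m : ℕ) (c : ℕ → ℤ) {i : ℤ} (hi : i < 0 ∨ m + 1 < i) : F m c (m + 1 - 2 * i) = 0 := by
  rcases hi with hi | hi
  · exact F_vanish m c (by linarith)
  · have h1 := F_vanish m c (n := -(m + 1 - 2 * i)) (by linarith)
    rw [F_neg] at h1
    linarith

lemma full_eq (m : ℕ) (c : ℕ → ℤ) {K : ℕ} (hK : m + 1 ≤ K) :
    full m c K = ∑ i ∈ Finset.range (m + 2), (-1) ^ i * term m c i := by
  unfold full
  have h1 : ∑ i ∈ Finset.range (m + 2), (-1) ^ i * term m c i =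
      ∑ i ∈ (Finset.range (m + 2)).image (fun i : ℕ => (i : ℤ)), sgn i * term m c i := by
    rw [Finset.sum_image (fun x _ y _ hxy => by exact_mod_cast hxy)]
    refine Finset.sum_congr rfl fun i _ => by rw [sgn_nat]
  rw [h1]
  symm
  apply Finset.sum_subset
  · intro x hx
    rw [Finset.mem_image] at hx
    obtain ⟨i, hi, rfl⟩ := hx
    rw [Finset.mem_range] at hi
    rw [Finset.mem_Icc]
    constructor <;> omega
  · intro x _ hx
    have : x < 0 ∨ (m : ℤ) + 1 < x := by
      by_contra hcon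
      push Not at hcon
      apply hx
      rw [Finset.mem_image]
      refine ⟨x.toNat, ?_, ?_⟩
      · rw [Finset.mem_range]; omega
      · omega
    unfold term
    rw [F_support m c this, C_0, zero_mul, mul_zero]

/-- shifting the summation index -/
lemma shift_sum (g : ℤ → ℤ[X]) (K : ℕ) (h0 : g (K : ℤ) = 0) (h1 : g (-(K : ℤ) - 1) = 0) :
    ∑ i ∈ Finset.Icc (-(K : ℤ)) K, g (i - 1) = ∑ i ∈ Finset.Icc (-(K : ℤ)) K, g i := by
  have e1 : ∑ i ∈ Finset.Icc (-(K : ℤ)) K, g (i - 1) = ∑ i ∈ Finset.Icc (-(K : ℤ) - 1) (K - 1), g i := by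
    have : Finset.Icc (-(K : ℤ) - 1) (K - 1) = (Finset.Icc (-(K : ℤ)) K).image (fun i => i - 1) := by
      ext x
      simp only [Finset.mem_Icc, Finset.mem_image]
      constructor
      · intro h
        exact ⟨x + 1, by omega, by omega⟩
      · rintro ⟨y, hy, rfl⟩
        omega
    rw [this, Finset.sum_image (fun x _ y _ hxy => by simpa using hxy)]
  rw [e1]
  have e2 : Finset.Icc (-(K : ℤ) - 1) (K - 1) = insert (-(K : ℤ) - 1) (Finset.Icc (-(K : ℤ)) (K - 1)) := by
    ext x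
    simp only [Finset.mem_Icc, Finset.mem_insert]
    omega
  have e3 : Finset.Icc (-(K : ℤ)) K = insert (K : ℤ) (Finset.Icc (-(K : ℤ)) (K - 1)) := by
    ext x
    simp only [Finset.mem_Icc, Finset.mem_insert]
    omega
  rw [e2, e3, Finset.sum_insert (by simp), Finset.sum_insert (by simp), h0, h1]

lemma full_rec (m : ℕ) (c : ℕ → ℤ) {K : ℕ} (hK : m + 3 ≤ K) :
    full (m + 2) c K = C (c 0) * X * full (m + 1) (fun i => c (i + 1)) K + full m (fun i => c (i + 2)) K := by
  unfold full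
  -- rewrite the two sums on the right as sums with `f (m + 3 - 2 i)`
  have h1 : X * ∑ i ∈ Finset.Icc (-(K : ℤ)) K, sgn i * term (m + 1) (fun i => c (i + 1)) i =
      ∑ i ∈ Finset.Icc (-(K : ℤ)) K, sgn i * (C (F (m + 1) (fun i => c (i + 1)) (m + 2 - 2 * i) +
        F (m + 1) (fun i => c (i + 1)) (m + 4 - 2 * i)) * fz (m + 3 - 2 * i)) := by
    have e1 : ∀ i : ℤ, X * (sgn i * term (m + 1) (fun i => c (i + 1)) i) =
        sgn i * (C (F (m + 1) (fun i => c (i + 1)) (m + 2 - 2 * i)) * fz (m + 3 - 2 * i)) -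
        sgn i * (C (F (m + 1) (fun i => c (i + 1)) (m + 2 - 2 * i)) * fz (m + 1 - 2 * i)) := by
      intro i
      unfold term
      have e2 : ((m + 1 : ℕ) : ℤ) + 1 - 2 * i = m + 2 - 2 * i := by push_cast; ring
      rw [e2]
      have e3 := fz_rec (m + 2 - 2 * i)
      have e4 : (m : ℤ) + 2 - 2 * i + 1 = m + 3 - 2 * i := by ring
      have e5 : (m : ℤ) + 2 - 2 * i - 1 = m + 1 - 2 * i := by ring
      rw [e4, e5] at e3
      linear_combination (sgn i * C (F (m + 1) (fun i => c (i + 1)) (m + 2 - 2 * i))) * e3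
    rw [Finset.mul_sum, Finset.sum_congr rfl (fun i _ => e1 i), Finset.sum_sub_distrib]
    have e2 := shift_sum (fun i => sgn i * (C (F (m + 1) (fun i => c (i + 1)) (m + 2 - 2 * i)) * fz (m + 1 - 2 * i))) K
      (by
        have h := F_support (m + 1) (fun i => c (i + 1)) (i := K) (Or.inr (by push_cast; omega))
        have e : ((m + 1 : ℕ) : ℤ) + 1 - 2 * K = m + 2 - 2 * K := by push_cast; ring
        rw [e] at h
        rw [h]; simp)
      (by
        have h := F_support (m + 1) (fun i => c (i + 1)) (i := -(K : ℤ) - 1) (Or.inl (by omega))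
        have e : ((m + 1 : ℕ) : ℤ) + 1 - 2 * (-(K : ℤ) - 1) = m + 2 - 2 * (-(K : ℤ) - 1) := by push_cast; ring
        rw [e] at h
        rw [h]; simp)
    rw [← e2, ← Finset.sum_sub_distrib]
    refine Finset.sum_congr rfl fun i _ => ?_
    have e3 : sgn i = - sgn (i - 1) := by
      have := sgn_succ (i - 1)
      rwa [sub_add_cancel] at this
    have e4 : (m : ℤ) + 2 - 2 * (i - 1) = m + 4 - 2 * i := by ring
    have e5 : (m : ℤ) + 1 - 2 * (i - 1) = m + 3 - 2 * i := by ring
    rw [e4, e5, e3, C_add]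
    ring
  have h2 : ∑ i ∈ Finset.Icc (-(K : ℤ)) K, sgn i * term m (fun i => c (i + 2)) i =
      ∑ i ∈ Finset.Icc (-(K : ℤ)) K, sgn i * (-(C (F m (fun i => c (i + 2)) (m + 3 - 2 * i)) * fz (m + 3 - 2 * i))) := by
    have e2 := shift_sum (fun i => sgn i * term m (fun i => c (i + 2)) i) K
      (by
        unfold term
        rw [F_support m (fun i => c (i + 2)) (i := K) (Or.inr (by omega))]; simp)
      (by
        unfold term
        rw [F_support m (fun i => c (i + 2)) (i := -(K : ℤ) - 1) (Or.inl (by omega))]; simp)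
    rw [← e2]
    refine Finset.sum_congr rfl fun i _ => ?_
    have e3 : sgn i = - sgn (i - 1) := by
      have := sgn_succ (i - 1)
      rwa [sub_add_cancel] at this
    unfold term
    have e5 : (m : ℤ) + 1 - 2 * (i - 1) = m + 3 - 2 * i := by ring
    rw [e5, e3]
    ring
  rw [mul_assoc, h1, h2, Finset.mul_sum, ← Finset.sum_add_distrib]
  refine Finset.sum_congr rfl fun i _ => ?_
  unfold term
  have e1 : ((m + 2 : ℕ) : ℤ) + 1 - 2 * i = m + 3 - 2 * i := by push_cast; ring
  rw [e1]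
  simp only [F]
  have e2 : (m : ℤ) + 3 - 2 * i - 1 = m + 2 - 2 * i := by ring
  have e3 : (m : ℤ) + 3 - 2 * i + 1 = m + 4 - 2 * i := by ring
  rw [e2, e3, C_sub, C_mul]
  ring

lemma full_range (m : ℕ) (c : ℕ → ℤ) {K : ℕ} (hK : m + 1 ≤ K) : full m c K = 2 * (cmat m c).det := by
  induction m using Nat.strong_induction_on generalizing c with
  | _ m ih =>
    match m with
    | 0 =>
      rw [full_eq 0 c hK, cdet_zero]
      rw [Finset.sum_range_succ, Finset.sum_range_succ, Finset.sum_range_zero]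
      unfold term
      have e1 : ((0 : ℕ) : ℤ) + 1 - 2 * ((0 : ℕ) : ℤ) = ((1 : ℕ) : ℤ) := by norm_num
      have e2 : ((0 : ℕ) : ℤ) + 1 - 2 * ((1 : ℕ) : ℤ) = -((1 : ℕ) : ℤ) := by norm_num
      rw [e1, e2, fz_nat, fz_neg_nat]
      simp [F, delta, fibPoly]
      norm_num
    | 1 =>
      rw [full_eq 1 c hK, cdet_one]
      rw [Finset.sum_range_succ, Finset.sum_range_succ, Finset.sum_range_succ, Finset.sum_range_zero]
      unfold term
      have e1 : ((1 : ℕ) : ℤ) + 1 - 2 * ((0 : ℕ) : ℤ) = ((2 : ℕ) : ℤ) := by norm_num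
      have e2 : ((1 : ℕ) : ℤ) + 1 - 2 * ((1 : ℕ) : ℤ) = ((0 : ℕ) : ℤ) := by norm_num
      have e3 : ((1 : ℕ) : ℤ) + 1 - 2 * ((2 : ℕ) : ℤ) = -((2 : ℕ) : ℤ) := by norm_num
      rw [e1, e2, e3, fz_nat, fz_nat, fz_neg_nat]
      simp [F, delta, fibPoly]
      ring
    | m + 2 =>
      rw [full_rec m c (by omega), cdet_rec, ih (m + 1) (by omega) _ (by omega), ih m (by omega) _ (by omega)]
      ring

/-- the expansion of the Conway polynomial in Fibonacci polynomials -/
theorem conway_expansion (m : ℕ) (c : ℕ → ℤ) : (cmat m c).det =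
    ∑ i ∈ Finset.range (m / 2 + 1), (-1) ^ i * (C (F m c (m + 1 - 2 * i)) * fibPoly (m + 1 - 2 * i)) := by
  have h1 := full_range m c (K := m + 1) (le_refl _)
  rw [full_eq m c (le_refl _)] at h1
  -- the half sum
  obtain ⟨S, hS⟩ : ∃ S : ℤ[X], S = ∑ i ∈ Finset.range (m / 2 + 1), (-1) ^ i * term m c i := ⟨_, rfl⟩
  have hS' : ∑ i ∈ Finset.range (m / 2 + 1), (-1) ^ i * (C (F m c (m + 1 - 2 * i)) * fibPoly (m + 1 - 2 * i)) = S := by
    rw [hS]
    refine Finset.sum_congr rfl fun i hi => ?_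
    rw [Finset.mem_range] at hi
    unfold term
    have e1 : ((m : ℤ) + 1 - 2 * i) = ((m + 1 - 2 * i : ℕ) : ℤ) := by omega
    rw [e1, fz_nat]
  rw [hS']
  have hrefl : ∀ i : ℕ, i ≤ m + 1 → (-1 : ℤ[X]) ^ (m + 1 - i) * term m c ((m + 1 - i : ℕ) : ℤ) = (-1) ^ i * term m c i := by
    intro i hi
    unfold term
    have e1 : ((m : ℤ) + 1 - 2 * ((m + 1 - i : ℕ) : ℤ)) = -((m : ℤ) + 1 - 2 * i) := by
      rw [Nat.cast_sub hi]; push_cast; ring
    rw [e1, F_neg]
    have e2 : ∀ n : ℤ, (n - (m + 1)) % 2 = 0 → fz (-n) = (-1) ^ m * fz n := by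
      intro n hn
      rcases le_total 0 n with h | h
      · obtain ⟨k, rfl⟩ := Int.eq_ofNat_of_zero_le h
        rw [fz_neg_nat, fz_nat]
        congr 1
        rcases Nat.even_or_odd m with hm | hm
        · rw [hm.neg_one_pow, Even.neg_one_pow]
          rw [Nat.even_iff] at *
          omega
        · rw [hm.neg_one_pow, Odd.neg_one_pow]
          rw [Nat.odd_iff] at *
          omega
      · obtain ⟨k, hk⟩ : ∃ k : ℕ, n = -(k : ℤ) := ⟨(-n).toNat, by omega⟩
        subst hk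
        rw [neg_neg, fz_neg_nat, fz_nat, ← mul_assoc, ← pow_add]
        rw [Even.neg_one_pow, one_mul]
        rw [Nat.even_iff]
        omega
    rw [e2 _ (by omega), C_neg]
    have e3 : (-1 : ℤ[X]) ^ (m + 1 - i) * (-1) ^ i = (-1) ^ (m + 1) := by
      rw [← pow_add]; congr 1; omega
    have e4 : (-1 : ℤ[X]) ^ i * (-1) ^ i = 1 := by rw [← mul_pow]; norm_num
    have e5 : (-1 : ℤ[X]) ^ (m + 1 - i) = (-1) ^ (m + 1) * (-1) ^ i := by
      rw [← e3, mul_assoc, e4, mul_one]
    have e6 : (-1 : ℤ[X]) ^ (m + 1) * (-1) ^ m = -1 := by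
      rw [← pow_add]
      exact Odd.neg_one_pow ⟨m, by ring⟩
    rw [e5]
    linear_combination (-(-1) ^ i * C (F m c (m + 1 - 2 * i)) * fz (m + 1 - 2 * i)) * e6
  have h2 : ∑ i ∈ Finset.range (m + 2), (-1) ^ i * term m c i = 2 * S := by
    rcases Nat.even_or_odd' m with ⟨k, hk | hk⟩
    · -- `m = 2 k`
      subst hk
      have e1 : 2 * k / 2 + 1 = k + 1 := by omega
      rw [e1] at hS
      have e2 : 2 * k + 2 = (k + 1) + (k + 1) := by ring
      rw [e2, Finset.sum_range_add, ← hS]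
      have e3 : ∑ x ∈ Finset.range (k + 1), (-1) ^ (k + 1 + x) * term (2 * k) c ((k + 1 + x : ℕ) : ℤ) = S := by
        rw [hS, ← Finset.sum_range_reflect]
        refine Finset.sum_congr rfl fun i hi => ?_
        rw [Finset.mem_range] at hi
        have h3 := hrefl i (by omega)
        have e4 : 2 * k + 1 - i = k + 1 + (k + 1 - 1 - i) := by omega
        rw [e4] at h3
        exact h3
      rw [e3]
      ring
    · -- `m = 2 k + 1`
      subst hk
      have e1 : (2 * k + 1) / 2 + 1 = k + 1 := by omega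
      rw [e1] at hS
      have e2 : 2 * k + 1 + 2 = (k + 1) + (k + 2) := by ring
      rw [e2, Finset.sum_range_add, ← hS, Finset.sum_range_succ']
      have e0 : (-1 : ℤ[X]) ^ (k + 1 + 0) * term (2 * k + 1) c ((k + 1 + 0 : ℕ) : ℤ) = 0 := by
        unfold term
        have e5 : (((2 * k + 1 : ℕ) : ℤ) + 1 - 2 * ((k + 1 + 0 : ℕ) : ℤ)) = 0 := by push_cast; ring
        rw [e5]
        have e6 : fz 0 = 0 := by simp [fz, fibPoly]
        rw [e6]
        simp
      rw [e0, add_zero]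
      have e3 : ∑ x ∈ Finset.range (k + 1), (-1) ^ (k + 1 + (x + 1)) * term (2 * k + 1) c ((k + 1 + (x + 1) : ℕ) : ℤ) = S := by
        rw [hS, ← Finset.sum_range_reflect]
        refine Finset.sum_congr rfl fun i hi => ?_
        rw [Finset.mem_range] at hi
        have h3 := hrefl i (by omega)
        have e4 : 2 * k + 1 + 1 - i = k + 1 + (k + 1 - 1 - i + 1) := by omega
        rw [e4] at h3
        exact h3
      rw [e3]
      ring
  rw [h2] at h1
  have h3 : (2 : ℤ[X]) ≠ 0 := two_ne_zero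
  exact (mul_left_cancel₀ h3 h1).symm

/-- the stronger conjecture: the coefficients are nonnegative, log-concave and trapezoidal -/
theorem conway_trapezoidal (m : ℕ) (c : Fin m → ℤ) (hc : ∀ i, c i ≠ 0) :
    ∃ (α : ℕ → ℤ) (ε : ℤ) (k : ℕ), (ε = 1 ∨ ε = -1) ∧ 0 < α 0 ∧ (∀ i, 0 ≤ α i) ∧
      conway c = C ε * ∑ i ∈ Finset.range (m / 2 + 1), (-1) ^ i * (C (α i) * fibPoly (m + 1 - 2 * i)) ∧
      k ≤ m / 2 ∧ (∀ i, i < k → α i ≤ α (i + 1)) ∧ (∀ i, k ≤ i → i < m / 2 → α (i + 1) ≤ α i) ∧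
      (∀ i j, i ≤ j → j < m / 2 → α i * α (j + 1) ≤ α (i + 1) * α j) := by
  obtain ⟨c', hc'⟩ : ∃ c', c' = ext m c := ⟨_, rfl⟩
  have hne : ∀ i, c' i ≠ 0 := by rw [hc']; exact ext_ne _ c hc
  have hg : Good ((m : ℤ) + 1) (psi m c') := (psi_cls m c' hne).good
  have hD : conway c = (cmat m c').det := by
    rw [← conway_eq, hc', ext_eq]
  obtain ⟨κ, hκ⟩ : ∃ κ, κ = kap m c' := ⟨_, rfl⟩
  have hκ2 : κ = 1 ∨ κ = -1 := by rw [hκ]; exact kap_sq _ _ hne
  have hκκ : κ * κ = 1 := by rcases hκ2 with h | h <;> rw [h] <;> norm_num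
  have hα : ∀ i : ℕ, κ * F m c' (m + 1 - 2 * i) = psi m c' (m + 1 - 2 * i) := by
    intro i
    rw [psi_even m c' (n := m + 1 - 2 * i) ⟨-(i : ℤ), by ring⟩, ← hκ]
  obtain ⟨α, hαdef⟩ : ∃ α : ℕ → ℤ, α = fun i : ℕ => if i ≤ m / 2 then κ * F m c' (m + 1 - 2 * i) else 0 := ⟨_, rfl⟩
  have hαi : ∀ i, i ≤ m / 2 → α i = κ * F m c' (m + 1 - 2 * i) := by
    intro i hi
    rw [hαdef]
    simp only [if_pos hi]
  have hαi' : ∀ i, m / 2 < i → α i = 0 := by
    intro i hi
    rw [hαdef]
    simp only [if_neg (not_le.mpr hi)]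
  have hnn : ∀ i, 0 ≤ α i := by
    intro i
    rcases le_or_gt i (m / 2) with h | h
    · rw [hαi i h, hα]
      exact hg.nonneg _ (by omega)
    · rw [hαi' i h]
  have hfull : ∀ i j, i ≤ j → α i * α (j + 1) ≤ α (i + 1) * α j := by
    intro i j hij
    rcases le_or_gt (j + 1) (m / 2) with h | h
    · rw [hαi i (by omega), hαi (j + 1) h, hαi (i + 1) (by omega), hαi j (by omega), hα, hα, hα, hα]
      have h1 := hg.full (k := m + 1 - 2 * ((j + 1 : ℕ) : ℤ)) (n := m + 1 - 2 * ((i + 1 : ℕ) : ℤ))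
        (by omega) (by omega)
      have e1 : (m : ℤ) + 1 - 2 * ((i + 1 : ℕ) : ℤ) + 2 = m + 1 - 2 * i := by push_cast; ring
      have e2 : (m : ℤ) + 1 - 2 * ((j + 1 : ℕ) : ℤ) + 2 = m + 1 - 2 * j := by push_cast; ring
      rw [e1, e2] at h1
      linarith
    · rw [hαi' (j + 1) h, mul_zero]
      exact mul_nonneg (hnn _) (hnn _)
  obtain ⟨k, hk, h1, h2⟩ := shape (m / 2) α hnn hfull
  refine ⟨α, κ, k, hκ2, ?_, hnn, ?_, hk, fun i hi => h1 i (by omega), fun i hi hi' => h2 i hi (by omega),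
    fun i j hij _ => hfull i j hij⟩
  · rw [hαi 0 (Nat.zero_le _), hα]
    have h3 := hg.top
    simpa using h3
  · rw [hD, conway_expansion, Finset.mul_sum]
    refine Finset.sum_congr rfl fun i hi => ?_
    rw [Finset.mem_range] at hi
    rw [hαi i (by omega), C_mul]
    have e1 : C κ * C κ = (1 : ℤ[X]) := by rw [← C_mul, hκκ, C_1]
    linear_combination (-((-1) ^ i * C (F m c' (m + 1 - 2 * i)) * fibPoly (m + 1 - 2 * i))) * e1

end Pool.Agent.Helper89.TwoBridge
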