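import Mathlib

/-!
Odd integer sequences `ψ` on `ℤ` for which `ψ (n + 2) / ψ n` is nonincreasing, and their window sums.
-/

set_option autoImplicit false

namespace Pool.Agent.Helper89.TwoBridge

/-- the class of sequences: odd, nonnegative on the nonnegative integers, with last nonzero value at
`N`, support closed upwards, and `ψ (n + 2) / ψ n` nonincreasing -/
structure Good (N : ℤ) (ψ : ℤ → ℤ) : Prop where
  odd : ∀ n, ψ (-n) = - ψ n
  nonneg : ∀ n, 0 ≤ n → 0 ≤ ψ n
  top : 0 < ψ N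
  vanish : ∀ n, N < n → ψ n = 0
  up : ∀ n, 0 < ψ n → n < N → 0 < ψ (n + 1)
  adj : ∀ q, 0 ≤ q → ψ q * ψ (q + 3) ≤ ψ (q + 2) * ψ (q + 1)

section
variable {N : ℤ} {ψ : ℤ → ℤ}

lemma Good.zero (h : Good N ψ) : ψ 0 = 0 := by
  have := h.odd 0
  simp only [neg_zero] at this
  linarith

lemma Good.nonpos (h : Good N ψ) (n : ℤ) (hn : n ≤ 0) : ψ n ≤ 0 := by
  have h1 := h.odd (-n)
  rw [neg_neg] at h1
  have h2 := h.nonneg (-n) (by linarith)
  linarith

lemma Good.pos_of_pos (h : Good N ψ) {k l : ℤ} (hk : 0 < ψ k) (hkl : k ≤ l) (hl : l ≤ N) : 0 < ψ l := by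
  induction l, hkl using Int.leInduction with
  | base => exact hk
  | succ n hn ih => exact h.up n (ih (by linarith)) (by linarith)

/-- the general form of the ratio monotonicity -/
lemma Good.full (h : Good N ψ) {k n : ℤ} (hk : 0 ≤ k) (hkn : k ≤ n) :
    ψ k * ψ (n + 2) ≤ ψ (k + 2) * ψ n := by
  induction n, hkn using Int.leInduction with
  | base => exact le_of_eq (mul_comm _ _)
  | succ n hn ih =>
    have e1 : n + 1 + 2 = n + 3 := by ring
    rw [e1]
    have hk0 := h.nonneg k hk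
    have hn3 := h.nonneg (n + 3) (by linarith)
    have hk2 := h.nonneg (k + 2) (by linarith)
    have hn1 := h.nonneg (n + 1) (by linarith)
    rcases hk0.eq_or_lt with h0 | hkpos
    · rw [← h0]
      simp only [zero_mul]
      exact mul_nonneg hk2 hn1
    rcases hn3.eq_or_lt with h0 | hn3pos
    · rw [← h0]
      simp only [mul_zero]
      exact mul_nonneg hk2 hn1
    have hN : n + 3 ≤ N := by
      by_contra hcon
      push Not at hcon
      rw [h.vanish _ hcon] at hn3pos
      exact lt_irrefl _ hn3pos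
    have hnpos : 0 < ψ n := h.pos_of_pos hkpos hn (by linarith)
    have hadj := h.adj n (by linarith)
    have hn2 := h.nonneg (n + 2) (by linarith)
    -- cancel `ψ n`
    have h1 : (ψ k * ψ (n + 3)) * ψ n ≤ (ψ (k + 2) * ψ (n + 1)) * ψ n := by
      calc (ψ k * ψ (n + 3)) * ψ n = ψ k * (ψ n * ψ (n + 3)) := by ring
        _ ≤ ψ k * (ψ (n + 2) * ψ (n + 1)) := mul_le_mul_of_nonneg_left hadj hk0
        _ = (ψ k * ψ (n + 2)) * ψ (n + 1) := by ring
        _ ≤ (ψ (k + 2) * ψ n) * ψ (n + 1) := mul_le_mul_of_nonneg_right ih hn1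
        _ = (ψ (k + 2) * ψ (n + 1)) * ψ n := by ring
    exact le_of_mul_le_mul_right h1 hnpos

/-- cumulative sums, extended symmetrically about `-1/2` -/
noncomputable def cum (ψ : ℤ → ℤ) (n : ℤ) : ℤ := ∑ i ∈ Finset.Icc 1 (max n (-1 - n)), ψ i

lemma cum_symm (ψ : ℤ → ℤ) (n : ℤ) : cum ψ (-1 - n) = cum ψ n := by
  unfold cum
  have : max (-1 - n) (-1 - (-1 - n)) = max n (-1 - n) := by
    rw [max_comm]; congr 1; ring
  rw [this]

lemma sum_Icc_succ (ψ : ℤ → ℤ) {n : ℤ} (hn : 0 ≤ n) :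
    ∑ i ∈ Finset.Icc 1 (n + 1), ψ i = ∑ i ∈ Finset.Icc 1 n, ψ i + ψ (n + 1) := by
  have h1 : Finset.Icc 1 (n + 1) = insert (n + 1) (Finset.Icc 1 n) := by
    ext x
    simp only [Finset.mem_Icc, Finset.mem_insert]
    omega
  rw [h1, Finset.sum_insert (by simp), add_comm]

lemma cum_sub (h : Good N ψ) (n : ℤ) : cum ψ n - cum ψ (n - 1) = ψ n := by
  unfold cum
  rcases lt_trichotomy n 0 with hn | hn | hn
  · have e1 : max n (-1 - n) = -1 - n := max_eq_right (by linarith)
    have e2 : max (n - 1) (-1 - (n - 1)) = (-1 - n) + 1 := by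
      rw [max_eq_right (by linarith)]; ring
    rw [e1, e2, sum_Icc_succ ψ (by linarith)]
    have e3 : -1 - n + 1 = -n := by ring
    rw [e3, h.odd n]
    ring
  · subst hn
    rw [h.zero]
    norm_num
  · have e1 : max n (-1 - n) = (n - 1) + 1 := by
      rw [max_eq_left (by linarith)]; ring
    have e2 : max (n - 1) (-1 - (n - 1)) = n - 1 := max_eq_left (by linarith)
    rw [e1, e2, sum_Icc_succ ψ (by linarith)]
    have e3 : n - 1 + 1 = n := by ring
    rw [e3]
    ring

lemma cum_mono (h : Good N ψ) {m n : ℤ} (hmn : max m (-1 - m) ≤ max n (-1 - n)) : cum ψ m ≤ cum ψ n := by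
  unfold cum
  apply Finset.sum_le_sum_of_subset_of_nonneg
  · exact Finset.Icc_subset_Icc_right hmn
  · intro i hi _
    rw [Finset.mem_Icc] at hi
    exact h.nonneg i (by linarith)

/-- the window sums -/
noncomputable def Z (ψ : ℤ → ℤ) (t q : ℤ) : ℤ := cum ψ (q + t) - cum ψ (q - t - 1)

lemma Z_zero (h : Good N ψ) (q : ℤ) : Z ψ 0 q = ψ q := by
  unfold Z
  have e1 : q + 0 = q := by ring
  have e2 : q - 0 - 1 = q - 1 := by ring
  rw [e1, e2, cum_sub h]

lemma Z_one (h : Good N ψ) (q : ℤ) : Z ψ 1 q = ψ (q - 1) + ψ q + ψ (q + 1) := by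
  unfold Z
  have h1 := cum_sub h (q + 1)
  have h2 := cum_sub h q
  have h3 := cum_sub h (q - 1)
  have e1 : q + 1 - 1 = q := by ring
  rw [e1] at h1
  linarith

lemma Z_odd (t q : ℤ) : Z ψ t (-q) = - Z ψ t q := by
  unfold Z
  have h1 := cum_symm ψ (q + t)
  have h2 := cum_symm ψ (q - t - 1)
  have e1 : -1 - (q + t) = -q - t - 1 := by ring
  have e2 : -1 - (q - t - 1) = -q + t := by ring
  rw [e1] at h1
  rw [e2] at h2
  rw [h1, h2]
  ring

lemma Z_wave (t q : ℤ) : Z ψ (t + 2) q = Z ψ (t + 1) (q - 1) + Z ψ (t + 1) (q + 1) - Z ψ t q := by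
  unfold Z
  have e1 : q - 1 + (t + 1) = q + t := by ring
  have e2 : q - 1 - (t + 1) - 1 = q - (t + 2) - 1 := by ring
  have e3 : q + 1 + (t + 1) = q + (t + 2) := by ring
  have e4 : q + 1 - (t + 1) - 1 = q - t - 1 := by ring
  rw [e1, e2, e3, e4]
  ring

lemma Z_nonneg (h : Good N ψ) {t q : ℤ} (ht : 0 ≤ t) (hq : 0 ≤ q) : 0 ≤ Z ψ t q := by
  unfold Z
  have := cum_mono h (m := q - t - 1) (n := q + t) (by
    rw [max_le_iff]
    refine ⟨le_max_of_le_left (by linarith), le_max_of_le_left (by linarith)⟩)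
  linarith

/-! ### the inequalities for windows -/

/-- left ends, direct windows -/
lemma win1 (h : Good N ψ) {L M : ℤ} (hL : 2 ≤ L) (hM : L - 1 ≤ M) :
    (ψ (L - 2) + ψ (L - 1)) * (cum ψ (M + 2) - cum ψ (L - 1)) ≤
      (ψ L + ψ (L + 1)) * (cum ψ M - cum ψ (L - 3)) := by
  induction M, hM using Int.leInduction with
  | base =>
    have h1 := cum_sub h (L + 1)
    have h2 := cum_sub h L
    have h3 := cum_sub h (L - 1)
    have h4 := cum_sub h (L - 2)
    have e1 : L + 1 - 1 = L := by ring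
    have e2 : L - 1 - 1 = L - 2 := by ring
    have e3 : L - 2 - 1 = L - 3 := by ring
    have e4 : L - 1 + 2 = L + 1 := by ring
    rw [e1] at h1
    rw [e2] at h3
    rw [e3] at h4
    rw [e4]
    have e5 : cum ψ (L + 1) - cum ψ (L - 1) = ψ L + ψ (L + 1) := by linarith
    have e6 : cum ψ (L - 1) - cum ψ (L - 3) = ψ (L - 2) + ψ (L - 1) := by linarith
    rw [e5, e6]
    exact le_of_eq (mul_comm _ _)
  | succ M hM ih =>
    have h1 := cum_sub h (M + 1 + 2)
    have h2 := cum_sub h (M + 1)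
    have e1 : M + 1 + 2 - 1 = M + 2 := by ring
    have e2 : M + 1 - 1 = M := by ring
    rw [e1] at h1
    rw [e2] at h2
    have f1 := h.full (k := L - 2) (n := M + 1) (by linarith) (by linarith)
    have f2 := h.full (k := L - 1) (n := M + 1) (by linarith) (by linarith)
    have e3 : L - 2 + 2 = L := by ring
    have e4 : L - 1 + 2 = L + 1 := by ring
    rw [e3] at f1
    rw [e4] at f2
    have e5 : cum ψ (M + 1 + 2) = cum ψ (M + 2) + ψ (M + 1 + 2) := by linarith
    have e6 : cum ψ (M + 1) = cum ψ M + ψ (M + 1) := by linarith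
    rw [e5, e6]
    nlinarith

/-- left ends, reflected windows -/
lemma win2 (h : Good N ψ) {z M : ℤ} (hz : 1 ≤ z) (hM : z + 2 ≤ M) :
    (ψ (z - 1) + ψ z) * (cum ψ M - cum ψ (z + 2)) ≤
      (ψ (z + 1) + ψ (z + 2)) * (cum ψ (M - 2) - cum ψ z) := by
  induction M, hM using Int.leInduction with
  | base =>
    have e1 : z + 2 - 2 = z := by ring
    rw [e1]
    simp
  | succ M hM ih =>
    have h1 := cum_sub h (M + 1)
    have h2 := cum_sub h (M + 1 - 2)
    have e1 : M + 1 - 1 = M := by ring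
    have e2 : M + 1 - 2 - 1 = M - 2 := by ring
    rw [e1] at h1
    rw [e2] at h2
    have f1 := h.full (k := z - 1) (n := M - 1) (by linarith) (by linarith)
    have f2 := h.full (k := z) (n := M - 1) (by linarith) (by linarith)
    have e3 : z - 1 + 2 = z + 1 := by ring
    have e4 : M - 1 + 2 = M + 1 := by ring
    have e7 : M + 1 - 2 = M - 1 := by ring
    rw [e3, e4] at f1
    rw [e4] at f2
    have e5 : cum ψ (M + 1) = cum ψ M + ψ (M + 1) := by linarith
    have e6 : cum ψ (M + 1 - 2) = cum ψ (M - 2) + ψ (M - 1) := by rw [← e7]; linarith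
    rw [e5, e6]
    nlinarith

/-- right ends, direct windows -/
lemma win3 (h : Good N ψ) {L M : ℤ} (hL : 2 ≤ L) (hM : L ≤ M + 1) :
    (ψ (M + 1) + ψ (M + 2)) * (cum ψ M - cum ψ (L - 3)) ≤
      (ψ (M - 1) + ψ M) * (cum ψ (M + 2) - cum ψ (L - 1)) := by
  obtain ⟨d, hd⟩ : ∃ d : ℕ, L = M + 1 - d := ⟨(M + 1 - L).toNat, by
    rw [Int.toNat_of_nonneg (by linarith)]; ring⟩
  induction d generalizing L with
  | zero =>
    have hL' : L = M + 1 := by simpa using hd
    subst hL'
    have h1 := cum_sub h (M + 2)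
    have h2 := cum_sub h (M + 1)
    have h3 := cum_sub h M
    have h4 := cum_sub h (M - 1)
    have e1 : M + 2 - 1 = M + 1 := by ring
    have e2 : M + 1 - 1 = M := by ring
    have e3 : M - 1 - 1 = M - 2 := by ring
    have e4 : M + 1 - 3 = M - 2 := by ring
    rw [e1] at h1
    rw [e2] at h2
    rw [e3] at h4
    rw [e4, e2]
    have e5 : cum ψ (M + 2) - cum ψ M = ψ (M + 1) + ψ (M + 2) := by linarith
    have e6 : cum ψ M - cum ψ (M - 2) = ψ (M - 1) + ψ M := by linarith
    rw [e5, e6]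
    exact le_of_eq (mul_comm _ _)
  | succ d ih =>
    have hd' : L + 1 = M + 1 - (d : ℤ) := by
      rw [hd]; push_cast; ring
    have hd0 : (0:ℤ) ≤ d := Int.natCast_nonneg d
    have ih' := ih (L := L + 1) (by linarith) (by linarith) hd'
    have e1 : L + 1 - 3 = L - 2 := by ring
    have e2 : L + 1 - 1 = L := by ring
    rw [e1, e2] at ih'
    have h1 := cum_sub h (L - 2)
    have h2 := cum_sub h L
    have e3 : L - 2 - 1 = L - 3 := by ring
    rw [e3] at h1
    have hLM : L ≤ M := by linarith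
    have f1 := h.full (k := L - 2) (n := M - 1) (by linarith) (by linarith)
    have f2 := h.full (k := L - 2) (n := M) (by linarith) (by linarith)
    have e4 : L - 2 + 2 = L := by ring
    have e5 : M - 1 + 2 = M + 1 := by ring
    rw [e4, e5] at f1
    rw [e4] at f2
    have e6 : cum ψ (L - 3) = cum ψ (L - 2) - ψ (L - 2) := by linarith
    have e7 : cum ψ (L - 1) = cum ψ L - ψ L := by linarith
    rw [e6, e7]
    nlinarith

/-- inequality `(A)` in reduced form -/
lemma ineqA' (h : Good N ψ) {L M : ℤ} (hLM : L ≤ M) (hc : 4 ≤ L + M) :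
    (ψ (L - 2) + ψ (L - 1)) * (cum ψ (M + 2) - cum ψ (L - 1)) ≤
      (ψ L + ψ (L + 1)) * (cum ψ M - cum ψ (L - 3)) := by
  rcases le_or_gt 2 L with hL | hL
  · exact win1 h hL (by linarith)
  · have hA : 0 ≤ cum ψ (M + 2) - cum ψ (L - 1) := by
      have := cum_mono h (m := L - 1) (n := M + 2) (by
        rw [max_le_iff]
        exact ⟨le_max_of_le_left (by linarith), le_max_of_le_left (by linarith)⟩)
      linarith
    have hB : 0 ≤ cum ψ M - cum ψ (L - 3) := by
      have := cum_mono h (m := L - 3) (n := M) (by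
        rw [max_le_iff]
        exact ⟨le_max_of_le_left (by linarith), le_max_of_le_left (by linarith)⟩)
      linarith
    rcases le_or_gt 0 L with hL0 | hL0
    · -- `L = 0` or `L = 1`
      have h1 : ψ (L - 2) + ψ (L - 1) ≤ 0 := by
        have := h.nonpos (L - 2) (by linarith)
        have := h.nonpos (L - 1) (by linarith)
        linarith
      have h2 : 0 ≤ ψ L + ψ (L + 1) := by
        have := h.nonneg L hL0
        have := h.nonneg (L + 1) (by linarith)
        linarith
      have := mul_nonneg h2 hB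
      nlinarith
    · obtain ⟨z, hz⟩ : ∃ z, z = -L := ⟨_, rfl⟩
      have hz1 : 1 ≤ z := by omega
      have hLz : L = -z := by linarith
      have h1 := win2 h hz1 (M := M) (by linarith)
      have e1 : cum ψ (L - 3) = cum ψ (z + 2) := by
        rw [← cum_symm ψ (z + 2)]
        congr 1
        rw [hLz]; ring
      have e2 : cum ψ (L - 1) = cum ψ z := by
        rw [← cum_symm ψ z]
        congr 1
        rw [hLz]; ring
      have e3 : ψ (L - 2) = - ψ (z + 2) := by
        rw [← h.odd]; congr 1; rw [hLz]; ring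
      have e4 : ψ (L - 1) = - ψ (z + 1) := by
        rw [← h.odd]; congr 1; rw [hLz]; ring
      have e5 : ψ L = - ψ z := by
        rw [← h.odd]; congr 1
      have e6 : ψ (L + 1) = - ψ (z - 1) := by
        rw [← h.odd]; congr 1; rw [hLz]; ring
      rw [e1, e2, e3, e4, e5, e6]
      have h2 : cum ψ (M - 2) ≤ cum ψ (M + 2) := cum_mono h (by
        rw [max_le_iff]
        exact ⟨le_max_of_le_left (by linarith), le_max_of_le_left (by linarith)⟩)
      have h3 : 0 ≤ ψ (z + 1) + ψ (z + 2) := by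
        have := h.nonneg (z + 1) (by linarith)
        have := h.nonneg (z + 2) (by linarith)
        linarith
      nlinarith

/-- inequality `(B)` in reduced form -/
lemma ineqB' (h : Good N ψ) {L M : ℤ} (hLM : L ≤ M + 1) (hc : 4 ≤ L + M) :
    (ψ (M + 1) + ψ (M + 2)) * (cum ψ M - cum ψ (L - 3)) ≤
      (ψ (M - 1) + ψ M) * (cum ψ (M + 2) - cum ψ (L - 1)) := by
  rcases le_or_gt 2 L with hL | hL
  · exact win3 h hL hLM
  · have h1 := win3 h (L := 5 - L) (M := M) (by linarith) (by linarith)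
    have e1 : cum ψ (L - 3) = cum ψ (5 - L - 3) := by
      rw [← cum_symm ψ (L - 3)]
      congr 1
      ring
    rw [e1]
    refine h1.trans ?_
    have h2 : cum ψ (L - 1) ≤ cum ψ (5 - L - 1) := cum_mono h (by
      rw [max_le_iff]
      exact ⟨le_max_of_le_left (by linarith), le_max_of_le_left (by linarith)⟩)
    have h3 : 0 ≤ ψ (M - 1) + ψ M := by
      have := h.nonneg (M - 1) (by linarith)
      have := h.nonneg M (by linarith)
      linarith
    nlinarith

/-- inequality `(A)` -/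
lemma ineqA (h : Good N ψ) {t q : ℤ} (ht : 0 ≤ t) (hq : 1 ≤ q) :
    Z ψ (t + 1) q * Z ψ t (q + 3) ≤ Z ψ (t + 1) (q + 2) * Z ψ t (q + 1) := by
  have h1 := ineqA' h (L := q + 1 - t) (M := q + 1 + t) (by linarith) (by linarith)
  unfold Z
  have c1 := cum_sub h (q + 1 - t)
  have c2 := cum_sub h (q + 1 - t + 1)
  have c3 := cum_sub h (q + 1 - t - 1)
  have c4 := cum_sub h (q + 1 - t - 2)
  have e1 : q + 1 - t + 1 - 1 = q + 1 - t := by ring
  have e2 : q + 1 - t - 1 - 1 = q + 1 - t - 2 := by ring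
  have e3 : q + 1 - t - 2 - 1 = q + 1 - t - 3 := by ring
  rw [e1] at c2
  rw [e2] at c3
  rw [e3] at c4
  have f1 : q + (t + 1) = q + 1 + t := by ring
  have f2 : q - (t + 1) - 1 = q + 1 - t - 3 := by ring
  have f3 : q + 3 + t = q + 1 + t + 2 := by ring
  have f4 : q + 3 - t - 1 = q + 1 - t + 1 := by ring
  have f5 : q + 2 + (t + 1) = q + 1 + t + 2 := by ring
  have f6 : q + 2 - (t + 1) - 1 = q + 1 - t - 1 := by ring
  rw [f1, f2, f3, f4, f5, f6]
  rw [← c1, ← c2, ← c3, ← c4] at h1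
  nlinarith

/-- inequality `(B)` -/
lemma ineqB (h : Good N ψ) {t q : ℤ} (ht : 0 ≤ t) (hq : 1 ≤ q) :
    Z ψ t q * Z ψ (t + 1) (q + 3) ≤ Z ψ t (q + 2) * Z ψ (t + 1) (q + 1) := by
  have h1 := ineqB' h (L := q + 2 - t) (M := q + t + 2) (by linarith) (by linarith)
  unfold Z
  have c1 := cum_sub h (q + t + 2)
  have c2 := cum_sub h (q + t + 2 + 1)
  have c3 := cum_sub h (q + t + 2 + 2)
  have c4 := cum_sub h (q + t + 2 - 1)
  have e1 : q + t + 2 + 1 - 1 = q + t + 2 := by ring
  have e2 : q + t + 2 + 2 - 1 = q + t + 2 + 1 := by ring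
  have e3 : q + t + 2 - 1 - 1 = q + t := by ring
  rw [e1] at c2
  rw [e2] at c3
  rw [e3] at c4
  have f2 : q - t - 1 = q + 2 - t - 3 := by ring
  have f3 : q + 3 + (t + 1) = q + t + 2 + 2 := by ring
  have f4 : q + 3 - (t + 1) - 1 = q + 2 - t - 1 := by ring
  have f5 : q + 2 + t = q + t + 2 := by ring
  have f7 : q + 1 + (t + 1) = q + t + 2 := by ring
  have f8 : q + 1 - (t + 1) - 1 = q + 2 - t - 3 := by ring
  rw [f2, f3, f4, f5, f7, f8]
  rw [← c1, ← c2, ← c3, ← c4] at h1
  nlinarith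

end

end Pool.Agent.Helper89.TwoBridge
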