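import Mathlib

/-!
Seifert matrices of two-bridge knots and the Alexander polynomial.
-/

set_option autoImplicit false

open Polynomial

namespace Pool.Agent.Helper89.TwoBridge

/-- The Seifert matrix, in the basis of the core curves, of the linear plumbing of `m` unknotted annuli
with `c 0, …, c (m - 1)` full twists.  For `m = 2 n` and nonzero `c i` the boundaries of these surfaces
are exactly the two-bridge knots of genus `n` (continued fraction expansions with even entries). -/
def seifert {m : ℕ} (c : Fin m → ℤ) : Matrix (Fin m) (Fin m) ℤ :=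
  Matrix.of fun i j => if i = j then c i else if (i : ℕ) + 1 = j then 1 else 0

/-- The Alexander polynomial `det (V - t Vᵀ)` of a Seifert matrix `V`. -/
noncomputable def alexander {m : ℕ} (V : Matrix (Fin m) (Fin m) ℤ) : ℤ[X] :=
  (V.map (C : ℤ → ℤ[X]) - (X : ℤ[X]) • V.transpose.map (C : ℤ → ℤ[X])).det

/-- The Conway polynomial `∇(z)` of the two-bridge link bounding the plumbing with `c 0, …, c (m - 1)`
full twists, characterised by `∇(t^{1/2} - t^{-1/2}) = det (t^{1/2} V - t^{-1/2} Vᵀ)`, `V = seifert c`:
the determinant of `z D + U - Uᵀ`, where `V = D + U`, `D` diagonal and `U` strictly upper triangular. -/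
noncomputable def conway {m : ℕ} (c : Fin m → ℤ) : ℤ[X] :=
  (Matrix.of fun i j : Fin m => if i = j then C (c i) * X else if (i : ℕ) + 1 = j then (1 : ℤ[X]) else
    if (j : ℕ) + 1 = i then -1 else 0).det

/-- The Fibonacci polynomials `f 0 = 0`, `f 1 = 1`, `f (j + 2) = z f (j + 1) + f j`. -/
noncomputable def fibPoly : ℕ → ℤ[X]
  | 0 => 0
  | 1 => 1
  | j + 2 => X * fibPoly (j + 1) + fibPoly j

end Pool.Agent.Helper89.TwoBridge
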