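import Pool.Agent.Helper89.TwoBridge.Core

/-!
The elementary steps and the invariant class.
-/

set_option autoImplicit false

namespace Pool.Agent.Helper89.TwoBridge

/-- the elementary step: on the integers congruent to `e` modulo `2` the value `ψ n` is replaced by
`b (ψ (n - 1) + ψ (n + 1)) - s ψ n` -/
def upd (e b s : ℤ) (ψ : ℤ → ℤ) (n : ℤ) : ℤ :=
  if Even (n - e) then b * (ψ (n - 1) + ψ (n + 1)) - s * ψ n else ψ n

/-- the windows sums of radius `t` or `t + 1` -/
noncomputable def Ost (e t : ℤ) (ψ : ℤ → ℤ) (n : ℤ) : ℤ :=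
  if Even (n - (e + t)) then Z ψ (t + 1) n else Z ψ t n

lemma odd_sub {a b : ℤ} (h : ¬ Even (a - b)) : Even (a - (b + 1)) := by
  rw [Int.not_even_iff_odd] at h
  have : a - (b + 1) = (a - b) - 1 := by ring
  rw [this]
  exact h.sub_odd odd_one

section
variable {N : ℤ} {ψ : ℤ → ℤ}

lemma Good.one_le (h : Good N ψ) : 1 ≤ N := by
  by_contra hcon
  push Not at hcon
  have := h.nonpos N (by linarith)
  have := h.top
  linarith

lemma cum_const (h : Good N ψ) {m n : ℤ} (hm : N ≤ m) (hmn : m ≤ n) : cum ψ n = cum ψ m := by
  induction n, hmn using Int.leInduction with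
  | base => rfl
  | succ n hn ih =>
    have h1 := cum_sub h (n + 1)
    have e1 : n + 1 - 1 = n := by ring
    rw [e1, h.vanish (n + 1) (by linarith)] at h1
    linarith

lemma V_eq_O (h : Good N ψ) (e : ℤ) : upd e 1 (-1) ψ = Ost e 0 ψ := by
  funext n
  unfold upd Ost
  rw [add_zero, zero_add, Z_zero h, Z_one h]
  split_ifs
  · ring
  · rfl

lemma R_O (e t : ℤ) : upd (e + t + 1) 1 1 (Ost e t ψ) = Ost e (t + 1) ψ := by
  funext n
  unfold upd
  by_cases hn : Even (n - (e + t + 1))
  · rw [if_pos hn]
    have h1 : Ost e (t + 1) ψ n = Z ψ (t + 1 + 1) n := by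
      unfold Ost
      rw [if_pos]
      have : n - (e + (t + 1)) = n - (e + t + 1) := by ring
      rw [this]; exact hn
    have hodd : ¬ Even (n - (e + t)) := by
      rw [Int.not_even_iff_odd]
      have : n - (e + t) = (n - (e + t + 1)) + 1 := by ring
      rw [this]
      exact hn.add_odd odd_one
    have h2 : Ost e t ψ n = Z ψ t n := by
      unfold Ost; rw [if_neg hodd]
    have h3 : Ost e t ψ (n - 1) = Z ψ (t + 1) (n - 1) := by
      unfold Ost
      rw [if_pos]
      have : n - 1 - (e + t) = n - (e + t + 1) := by ring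
      rw [this]; exact hn
    have h4 : Ost e t ψ (n + 1) = Z ψ (t + 1) (n + 1) := by
      unfold Ost
      rw [if_pos]
      have : n + 1 - (e + t) = (n - (e + t + 1)) + 2 := by ring
      rw [this]; exact hn.add even_two
    rw [h1, h2, h3, h4]
    have h5 := Z_wave (ψ := ψ) t n
    have e1 : t + 1 + 1 = t + 2 := by ring
    rw [e1, h5]
    ring
  · rw [if_neg hn]
    have h1 : Ost e (t + 1) ψ n = Z ψ (t + 1) n := by
      unfold Ost
      rw [if_neg]
      have : n - (e + (t + 1)) = n - (e + t + 1) := by ring
      rw [this]; exact hn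
    have h2 : Ost e t ψ n = Z ψ (t + 1) n := by
      unfold Ost
      rw [if_pos]
      rw [Int.not_even_iff_odd] at hn
      have : n - (e + t) = (n - (e + t + 1)) + 1 := by ring
      rw [this]
      exact hn.add_odd odd_one
    rw [h1, h2]

/-- the main lemma: window sums of good sequences are good -/
theorem good_O (h : Good N ψ) {e : ℤ} (he : e = N ∨ e = N + 1) {t : ℤ} (ht : 0 ≤ t) :
    Good (e + t) (Ost e t ψ) := by
  have hN := h.one_le
  have heN : N ≤ e := by rcases he with h | h <;> linarith
  have heN' : e ≤ N + 1 := by rcases he with h | h <;> linarith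
  have hodd : ∀ n, Ost e t ψ (-n) = - Ost e t ψ n := by
    intro n
    unfold Ost
    have h1 : Even (-n - (e + t)) ↔ Even (n - (e + t)) := by
      have : -n - (e + t) = (n - (e + t)) - 2 * n := by ring
      rw [this]
      constructor
      · intro h2
        have := h2.add (even_two_mul n)
        simpa using this
      · intro h2
        exact h2.sub (even_two_mul n)
    by_cases hn : Even (n - (e + t))
    · rw [if_pos (h1.mpr hn), if_pos hn, Z_odd]
    · rw [if_neg (fun h2 => hn (h1.mp h2)), if_neg hn, Z_odd]
  have hnonneg : ∀ n, 0 ≤ n → 0 ≤ Ost e t ψ n := by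
    intro n hn
    unfold Ost
    split_ifs
    · exact Z_nonneg h (by linarith) hn
    · exact Z_nonneg h ht hn
  refine ⟨hodd, hnonneg, ?_, ?_, ?_, ?_⟩
  · -- top
    have h1 : Ost e t ψ (e + t) = Z ψ (t + 1) (e + t) := by
      unfold Ost; rw [if_pos (by simp)]
    rw [h1]
    unfold Z
    have e1 : e + t + (t + 1) = e + 2 * t + 1 := by ring
    have e2 : e + t - (t + 1) - 1 = e - 2 := by ring
    rw [e1, e2]
    have h2 : cum ψ N ≤ cum ψ (e + 2 * t + 1) := cum_mono h (by
      rw [max_le_iff]
      exact ⟨le_max_of_le_left (by linarith), le_max_of_le_left (by linarith)⟩)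
    have h3 : cum ψ (e - 2) ≤ cum ψ (N - 1) := cum_mono h (by
      rw [max_le_iff]
      refine ⟨le_max_of_le_left (by linarith), ?_⟩
      by_cases h4 : 1 ≤ e - 1
      · exact le_max_of_le_left (by linarith)
      · have : N = 1 := by linarith
        have h5 : e = 1 := by linarith
        subst this
        subst h5
        norm_num)
    have h4 := cum_sub h N
    have h5 := h.top
    linarith
  · -- vanish
    intro n hn
    unfold Ost
    by_cases hp : Even (n - (e + t))
    · rw [if_pos hp]
      have h1 : e + t + 2 ≤ n := by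
        obtain ⟨k, hk⟩ := hp
        omega
      unfold Z
      have h2 := cum_const h (m := n - (t + 1) - 1) (n := n + (t + 1)) (by linarith) (by linarith)
      rw [h2]; ring
    · rw [if_neg hp]
      unfold Z
      have h2 := cum_const h (m := n - t - 1) (n := n + t) (by linarith) (by linarith)
      rw [h2]; ring
  · -- upward closed support
    intro n hpos hn
    have hn1 : 1 ≤ n := by
      by_contra hcon
      push Not at hcon
      have h1 := hnonneg (-n) (by linarith)
      rw [hodd] at h1
      linarith
    by_cases hp : Even (n - (e + t))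
    · have hle : n ≤ e + t - 2 := by
        obtain ⟨k, hk⟩ := hp
        omega
      have hp' : ¬ Even (n + 1 - (e + t)) := by
        rw [Int.not_even_iff_odd]
        have : n + 1 - (e + t) = (n - (e + t)) + 1 := by ring
        rw [this]; exact hp.add_odd odd_one
      have h1 : Ost e t ψ n = cum ψ (n + t + 1) - cum ψ (n - t - 2) := by
        unfold Ost Z
        rw [if_pos hp]
        congr 2 <;> ring
      have h2 : Ost e t ψ (n + 1) = cum ψ (n + t + 1) - cum ψ (n - t) := by
        unfold Ost Z
        rw [if_neg hp']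
        congr 2 <;> ring
      rw [h1] at hpos
      rw [h2]
      rcases le_or_gt n t with hnt | hnt
      · have h3 : cum ψ (n - t) ≤ cum ψ (n - t - 2) := cum_mono h (by
          rw [max_le_iff]
          exact ⟨le_max_of_le_right (by linarith), le_max_of_le_right (by linarith)⟩)
        linarith
      · by_contra hcon
        push Not at hcon
        have h3 := cum_sub h (n - t + 1)
        have h4 := cum_sub h (n - t)
        have h5 := cum_sub h (n - t - 1)
        have e1 : n - t + 1 - 1 = n - t := by ring
        have e2 : n - t - 1 - 1 = n - t - 2 := by ring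
        rw [e1] at h3
        rw [e2] at h5
        have h6 : cum ψ (n - t + 1) ≤ cum ψ (n + t + 1) := cum_mono h (by
          rw [max_le_iff]
          exact ⟨le_max_of_le_left (by linarith), le_max_of_le_left (by linarith)⟩)
        have h7 : ¬ 0 < ψ (n - t + 1) := by
          intro h8
          linarith
        have h9 : ψ (n - t) ≤ 0 := by
          by_contra h10
          push Not at h10
          exact h7 (h.pos_of_pos h10 (by linarith) (by linarith))
        have h11 : ψ (n - t - 1) ≤ 0 := by
          by_contra h10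
          push Not at h10
          exact h7 (h.pos_of_pos h10 (by linarith) (by linarith))
        linarith
    · have hp' : Even (n + 1 - (e + t)) := by
        rw [Int.not_even_iff_odd] at hp
        have : n + 1 - (e + t) = (n - (e + t)) + 1 := by ring
        rw [this]; exact hp.add_odd odd_one
      have h1 : Ost e t ψ n = cum ψ (n + t) - cum ψ (n - t - 1) := by
        unfold Ost Z
        rw [if_neg hp]
      have h2 : Ost e t ψ (n + 1) = cum ψ (n + t + 2) - cum ψ (n - t - 1) := by
        unfold Ost Z
        rw [if_pos hp']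
        congr 2 <;> ring
      rw [h1] at hpos
      rw [h2]
      have h3 : cum ψ (n + t) ≤ cum ψ (n + t + 2) := cum_mono h (by
        rw [max_le_iff]
        exact ⟨le_max_of_le_left (by linarith), le_max_of_le_left (by linarith)⟩)
      linarith
  · -- the inequality
    intro q hq
    rcases hq.eq_or_lt with h0 | hq0
    · subst h0
      have h1 := hodd 0
      rw [neg_zero] at h1
      have h2 : Ost e t ψ 0 = 0 := by linarith
      rw [h2, zero_mul]
      exact mul_nonneg (hnonneg _ (by norm_num)) (hnonneg _ (by norm_num))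
    by_cases hp : Even (q - (e + t))
    · have p1 : ¬ Even (q + 1 - (e + t)) := by
        rw [Int.not_even_iff_odd]
        have : q + 1 - (e + t) = (q - (e + t)) + 1 := by ring
        rw [this]; exact hp.add_odd odd_one
      have p2 : Even (q + 2 - (e + t)) := by
        have : q + 2 - (e + t) = (q - (e + t)) + 2 := by ring
        rw [this]; exact hp.add even_two
      have p3 : ¬ Even (q + 3 - (e + t)) := by
        rw [Int.not_even_iff_odd]
        have : q + 3 - (e + t) = (q + 2 - (e + t)) + 1 := by ring
        rw [this]; exact p2.add_odd odd_one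
      unfold Ost
      rw [if_pos hp, if_neg p1, if_pos p2, if_neg p3]
      exact ineqA h ht hq0
    · have hp' := hp
      rw [Int.not_even_iff_odd] at hp'
      have p1 : Even (q + 1 - (e + t)) := by
        have : q + 1 - (e + t) = (q - (e + t)) + 1 := by ring
        rw [this]; exact hp'.add_odd odd_one
      have p2 : ¬ Even (q + 2 - (e + t)) := by
        rw [Int.not_even_iff_odd]
        have : q + 2 - (e + t) = (q + 1 - (e + t)) + 1 := by ring
        rw [this]; exact p1.add_odd odd_one
      have p3 : Even (q + 3 - (e + t)) := by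
        have : q + 3 - (e + t) = (q + 1 - (e + t)) + 2 := by ring
        rw [this]; exact p1.add even_two
      unfold Ost
      rw [if_neg hp, if_pos p1, if_neg p2, if_pos p3]
      exact ineqB h ht hq0

end

/-- the iterates of the step `b = s = 1` -/
def Rit (N : ℤ) : ℕ → (ℤ → ℤ) → (ℤ → ℤ)
  | 0, ψ => ψ
  | t + 1, ψ => upd (N + t + 1) 1 1 (Rit N t ψ)

/-- the invariant class -/
def Cls (N : ℤ) (ψ : ℤ → ℤ) : Prop := ∀ t : ℕ, Good (N + t) (Rit N t ψ)

lemma Rit_succ (N : ℤ) (t : ℕ) (ψ : ℤ → ℤ) : Rit N (t + 1) ψ = Rit (N + 1) t (upd (N + 1) 1 1 ψ) := by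
  induction t with
  | zero => simp [Rit]
  | succ t ih =>
    rw [Rit, ih, Rit]
    congr 1
    push_cast
    ring

lemma Cls.good {N : ℤ} {ψ : ℤ → ℤ} (h : Cls N ψ) : Good N ψ := by
  have := h 0
  simpa [Rit] using this

lemma cls_R {N : ℤ} {ψ : ℤ → ℤ} (h : Cls N ψ) : Cls (N + 1) (upd (N + 1) 1 1 ψ) := by
  intro t
  rw [← Rit_succ]
  have := h (t + 1)
  have e1 : N + 1 + (t : ℤ) = N + ((t + 1 : ℕ) : ℤ) := by push_cast; ring
  rw [e1]
  exact this

lemma cls_V {N : ℤ} {ψ : ℤ → ℤ} (h : Good N ψ) {e : ℤ} (he : e = N ∨ e = N + 1) :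
    Cls e (upd e 1 (-1) ψ) := by
  have h1 : ∀ t : ℕ, Rit e t (upd e 1 (-1) ψ) = Ost e t ψ := by
    intro t
    induction t with
    | zero => simp only [Rit, Nat.cast_zero]; exact V_eq_O h e
    | succ t ih =>
      rw [Rit, ih, R_O]
      push_cast
      rfl
  intro t
  rw [h1]
  exact good_O h he (Int.natCast_nonneg t)

lemma upd_succ (e b s : ℤ) (ψ : ℤ → ℤ) : upd e 1 (-1) (upd e b s ψ) = upd e (b + 1) s ψ := by
  funext n
  unfold upd
  by_cases hn : Even (n - e)
  · have h1 : ¬ Even (n - 1 - e) := by
      rw [Int.not_even_iff_odd]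
      have : n - 1 - e = (n - e) - 1 := by ring
      rw [this]; exact hn.sub_odd odd_one
    have h2 : ¬ Even (n + 1 - e) := by
      rw [Int.not_even_iff_odd]
      have : n + 1 - e = (n - e) + 1 := by ring
      rw [this]; exact hn.add_odd odd_one
    simp only [if_pos hn, if_neg h1, if_neg h2]
    ring
  · simp only [if_neg hn]

/-- all steps preserve the invariant class -/
theorem cls_step {N : ℤ} {ψ : ℤ → ℤ} (h : Cls N ψ) {b s : ℤ} (hb : 1 ≤ b) (hs : s = 1 ∨ s = -1) :
    Cls (N + 1) (upd (N + 1) b s ψ) := by
  induction b, hb using Int.leInduction with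
  | base =>
    rcases hs with rfl | rfl
    · exact cls_R h
    · exact cls_V h.good (Or.inr rfl)
  | succ b hb ih =>
    rw [← upd_succ]
    exact cls_V ih.good (Or.inl rfl)

/-- the initial sequence -/
def delta (n : ℤ) : ℤ := if n = 1 then 1 else if n = -1 then -1 else 0

lemma delta_good : Good 1 delta := by
  refine ⟨?_, ?_, ?_, ?_, ?_, ?_⟩
  · intro n
    unfold delta
    split_ifs <;> omega
  · intro n hn
    unfold delta
    split_ifs <;> omega
  · unfold delta; norm_num
  · intro n hn
    unfold delta
    split_ifs <;> omega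
  · intro n h1 h2
    unfold delta at h1
    split_ifs at h1 with h3 h4 <;> omega
  · intro q hq
    unfold delta
    split_ifs <;> omega

lemma delta_cls : Cls 1 delta := by
  have h1 := cls_V delta_good (e := 1) (Or.inl rfl)
  have h2 : upd 1 1 (-1) delta = delta := by
    funext n
    unfold upd
    split_ifs with hn
    · obtain ⟨k, hk⟩ := hn
      unfold delta
      split_ifs <;> omega
    · rfl
  rw [h2] at h1
  exact h1

end Pool.Agent.Helper89.TwoBridge
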