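import Pool.Agent.Helper89.TwoBridge.Defs
import Pool.Agent.Helper89.TwoBridge.State

/-!
The recursion for the Alexander polynomials and its relation with the odd sequences.
-/

set_option autoImplicit false

open Polynomial

namespace Pool.Agent.Helper89.TwoBridge

/-- the matrix `V - t Vᵀ` -/
noncomputable def tri (m : ℕ) (c : ℕ → ℤ) : Matrix (Fin m) (Fin m) ℤ[X] :=
  Matrix.of fun i j => if i = j then C (c i) * (1 - X) else if (i : ℕ) + 1 = j then 1 else
    if (j : ℕ) + 1 = i then -X else 0

lemma alexander_eq (m : ℕ) (c : ℕ → ℤ) : alexander (seifert fun i : Fin m => c i) = (tri m c).det := by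
  unfold alexander
  congr 1
  ext1 i j
  simp only [Matrix.sub_apply, Matrix.map_apply, Matrix.smul_apply, Matrix.transpose_apply, seifert,
    Matrix.of_apply, tri, smul_eq_mul]
  by_cases hij : i = j
  · subst hij
    simp only [if_true]
    ring
  · have hji : ¬ j = i := fun h => hij h.symm
    rw [if_neg hij, if_neg hji, if_neg hij]
    by_cases h1 : (i : ℕ) + 1 = j
    · have h2 : ¬ (j : ℕ) + 1 = i := by omega
      rw [if_pos h1, if_neg h2, if_pos h1]
      simp
    · rw [if_neg h1, if_neg h1]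
      by_cases h2 : (j : ℕ) + 1 = i
      · rw [if_pos h2, if_pos h2]
        simp
      · rw [if_neg h2, if_neg h2]
        simp

lemma det_zero (c : ℕ → ℤ) : (tri 0 c).det = 1 := Matrix.det_fin_zero

lemma det_one (c : ℕ → ℤ) : (tri 1 c).det = C (c 0) * (1 - X) := by
  rw [Matrix.det_fin_one]
  simp [tri]

lemma tri_sub (m : ℕ) (c : ℕ → ℤ) :
    (tri (m + 1) c).submatrix Fin.succ Fin.succ = tri m (fun i => c (i + 1)) := by
  ext1 i j
  simp only [Matrix.submatrix_apply, tri, Matrix.of_apply, Fin.succ_inj, Fin.val_succ]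
  by_cases hij : i = j
  · rw [if_pos hij, if_pos hij]
  · rw [if_neg hij, if_neg hij]
    have e1 : ((i : ℕ) + 1 + 1 = (j : ℕ) + 1) ↔ ((i : ℕ) + 1 = j) := by omega
    have e2 : ((j : ℕ) + 1 + 1 = (i : ℕ) + 1) ↔ ((j : ℕ) + 1 = i) := by omega
    simp only [e1, e2]

lemma det_rec (m : ℕ) (c : ℕ → ℤ) : (tri (m + 2) c).det =
    C (c 0) * (1 - X) * (tri (m + 1) (fun i => c (i + 1))).det + X * (tri m (fun i => c (i + 2))).det := by
  rw [Matrix.det_succ_row_zero, Fin.sum_univ_succ, Fin.sum_univ_succ]
  have h0 : ∀ j : Fin m, (-1 : ℤ[X]) ^ ((j.succ.succ : Fin (m + 2)) : ℕ) * tri (m + 2) c 0 j.succ.succ *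
      ((tri (m + 2) c).submatrix Fin.succ (Fin.succAbove j.succ.succ)).det = 0 := by
    intro j
    have : tri (m + 2) c 0 j.succ.succ = 0 := by
      simp only [tri, Matrix.of_apply]
      have h1 : ¬ (0 : Fin (m + 2)) = j.succ.succ := (Fin.succ_ne_zero _).symm
      rw [if_neg h1]
      have h2 : ¬ ((0 : Fin (m + 2)) : ℕ) + 1 = ((j.succ.succ : Fin (m + 2)) : ℕ) := by
        simp only [Fin.val_succ, Fin.val_zero]; omega
      have h3 : ¬ ((j.succ.succ : Fin (m + 2)) : ℕ) + 1 = ((0 : Fin (m + 2)) : ℕ) := by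
        simp only [Fin.val_zero]; omega
      rw [if_neg h2, if_neg h3]
    rw [this]
    ring
  rw [Finset.sum_eq_zero (fun j _ => h0 j), add_zero]
  have h1 : tri (m + 2) c 0 0 = C (c 0) * (1 - X) := by simp [tri]
  have h2 : tri (m + 2) c 0 (Fin.succ 0) = 1 := by
    simp [tri]
  have h3 : (tri (m + 2) c).submatrix Fin.succ (Fin.succAbove 0) = tri (m + 1) (fun i => c (i + 1)) := by
    rw [← tri_sub]
    congr 1
  have h4 : ((tri (m + 2) c).submatrix Fin.succ (Fin.succAbove (Fin.succ 0))).det =
      - X * (tri m (fun i => c (i + 2))).det := by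
    rw [Matrix.det_succ_column_zero, Fin.sum_univ_succ]
    have h5 : ∀ i : Fin m, (-1 : ℤ[X]) ^ ((i.succ : Fin (m + 1)) : ℕ) *
        ((tri (m + 2) c).submatrix Fin.succ (Fin.succAbove (Fin.succ 0))) i.succ 0 *
        (((tri (m + 2) c).submatrix Fin.succ (Fin.succAbove (Fin.succ 0))).submatrix
          (Fin.succAbove i.succ) Fin.succ).det = 0 := by
      intro i
      have : ((tri (m + 2) c).submatrix Fin.succ (Fin.succAbove (Fin.succ 0))) i.succ 0 = 0 := by
        simp only [Matrix.submatrix_apply]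
        have e1 : (Fin.succ 0 : Fin (m + 2)).succAbove 0 = 0 := by
          simp
        rw [e1]
        simp only [tri, Matrix.of_apply]
        have h1 : ¬ (i.succ.succ : Fin (m + 2)) = 0 := Fin.succ_ne_zero _
        rw [if_neg h1]
        have h2 : ¬ ((i.succ.succ : Fin (m + 2)) : ℕ) + 1 = ((0 : Fin (m + 2)) : ℕ) := by
          simp only [Fin.val_zero]; omega
        have h3 : ¬ ((0 : Fin (m + 2)) : ℕ) + 1 = ((i.succ.succ : Fin (m + 2)) : ℕ) := by
          simp only [Fin.val_succ, Fin.val_zero]; omega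
        rw [if_neg h2, if_neg h3]
      rw [this]
      ring
    rw [Finset.sum_eq_zero (fun i _ => h5 i), add_zero]
    have e1 : ((tri (m + 2) c).submatrix Fin.succ (Fin.succAbove (Fin.succ 0))) 0 0 = -X := by
      simp only [Matrix.submatrix_apply]
      have e1 : (Fin.succ 0 : Fin (m + 2)).succAbove 0 = 0 := by
        simp
      rw [e1]
      simp only [tri, Matrix.of_apply]
      have h1 : ¬ (Fin.succ 0 : Fin (m + 2)) = 0 := Fin.succ_ne_zero _
      rw [if_neg h1]
      simp
    have e2 : (((tri (m + 2) c).submatrix Fin.succ (Fin.succAbove (Fin.succ 0))).submatrix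
          (Fin.succAbove 0) Fin.succ) = tri m (fun i => c (i + 2)) := by
      have e3 : tri m (fun i => c (i + 2)) = ((tri (m + 2) c).submatrix Fin.succ Fin.succ).submatrix Fin.succ Fin.succ := by
        rw [tri_sub, tri_sub]
      rw [e3]
      ext1 i j
      simp only [Matrix.submatrix_apply]
      congr 2
    rw [e1, e2]
    simp
  rw [h1, h2, h3, h4]
  simp

/-! ### the sequences -/

/-- the signed sequences -/
def F : ℕ → (ℕ → ℤ) → ℤ → ℤ
  | 0, _ => delta
  | 1, c => fun n => c 0 * (delta (n - 1) + delta (n + 1))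
  | m + 2, c => fun n => c 0 * (F (m + 1) (fun i => c (i + 1)) (n - 1) + F (m + 1) (fun i => c (i + 1)) (n + 1)) -
      F m (fun i => c (i + 2)) n

/-- the product of the signs -/
def kap : ℕ → (ℕ → ℤ) → ℤ
  | 0, _ => 1
  | m + 1, c => (c 0).sign * kap m (fun i => c (i + 1))

/-- the interleaved sequences -/
def psi : ℕ → (ℕ → ℤ) → ℤ → ℤ
  | 0, _ => delta
  | m + 1, c => fun n => if Even (n - (m + 2)) then kap (m + 1) c * F (m + 1) c n else
      kap m (fun i => c (i + 1)) * F m (fun i => c (i + 1)) n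

lemma psi_succ (m : ℕ) (c : ℕ → ℤ) (n : ℤ) : psi (m + 1) c n =
    if Even (n - (m + 2)) then kap (m + 1) c * F (m + 1) c n else
      kap m (fun i => c (i + 1)) * F m (fun i => c (i + 1)) n := rfl

lemma kap_sq (m : ℕ) (c : ℕ → ℤ) (hc : ∀ i, c i ≠ 0) : kap m c = 1 ∨ kap m c = -1 := by
  induction m generalizing c with
  | zero => exact Or.inl rfl
  | succ m ih =>
    have h1 := ih (fun i => c (i + 1)) (fun i => hc _)
    have h2 : (c 0).sign = 1 ∨ (c 0).sign = -1 := by
      rcases lt_or_gt_of_ne (hc 0) with h | h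
      · exact Or.inr (Int.sign_eq_neg_one_of_neg h)
      · exact Or.inl (Int.sign_eq_one_of_pos h)
    rw [kap]
    rcases h1 with h1 | h1 <;> rcases h2 with h2 | h2 <;> rw [h1, h2] <;> simp

lemma psi_even (m : ℕ) (c : ℕ → ℤ) {n : ℤ} (hn : Even (n - (m + 1))) : psi m c n = kap m c * F m c n := by
  cases m with
  | zero => simp [psi, kap, F]
  | succ m =>
    have : n - ((m : ℤ) + 2) = n - (((m + 1 : ℕ) : ℤ) + 1) := by push_cast; ring
    rw [psi_succ, if_pos (by rw [this]; exact hn)]

lemma psi_odd (m : ℕ) (c : ℕ → ℤ) {n : ℤ} (hn : ¬ Even (n - (m + 2))) :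
    psi (m + 1) c n = kap m (fun i => c (i + 1)) * F m (fun i => c (i + 1)) n := by
  rw [psi_succ, if_neg hn]

lemma psi_step (m : ℕ) (c : ℕ → ℤ) (hc : ∀ i, c i ≠ 0) : ∃ s : ℤ, (s = 1 ∨ s = -1) ∧
    psi (m + 1) c = upd (m + 2) |c 0| s (psi m (fun i => c (i + 1))) := by
  have habs : |c 0| = (c 0).sign * c 0 := (Int.sign_mul_self_eq_abs (c 0)).symm
  cases m with
  | zero =>
    refine ⟨1, Or.inl rfl, ?_⟩
    funext n
    unfold upd
    by_cases hn : Even (n - ((0 : ℕ) + 2))
    · rw [if_pos hn, psi_succ, if_pos hn]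
      have h0 : delta n = 0 := by
        unfold delta
        obtain ⟨k, hk⟩ := hn
        split_ifs <;> omega
      simp only [kap, F, psi, h0, habs]
      ring
    · rw [if_neg hn, psi_succ, if_neg hn]
      simp [kap, F, psi]
  | succ m =>
    have hsg : (c 0).sign * (c 1).sign = 1 ∨ (c 0).sign * (c 1).sign = -1 := by
      have := kap_sq 2 c hc
      simpa [kap] using this
    have hc1 : (c 1).sign * (c 1).sign = 1 := by
      rcases lt_or_gt_of_ne (hc 1) with h | h
      · rw [Int.sign_eq_neg_one_of_neg h]; norm_num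
      · rw [Int.sign_eq_one_of_pos h]; norm_num
    refine ⟨(c 0).sign * (c 1).sign, hsg, ?_⟩
    funext n
    unfold upd
    have e1 : ((m + 1 : ℕ) : ℤ) + 2 = (m : ℤ) + 3 := by push_cast; ring
    rw [e1]
    by_cases hn : Even (n - ((m : ℤ) + 3))
    · rw [if_pos hn]
      have h1 : psi (m + 1 + 1) c n = kap (m + 2) c * F (m + 2) c n := by
        rw [psi_succ, if_pos]
        have : n - (((m + 1 : ℕ) : ℤ) + 2) = n - ((m : ℤ) + 3) := by push_cast; ring
        rw [this]; exact hn
      have h2 : psi (m + 1) (fun i => c (i + 1)) (n - 1) =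
          kap (m + 1) (fun i => c (i + 1)) * F (m + 1) (fun i => c (i + 1)) (n - 1) := by
        apply psi_even
        have : n - 1 - (((m + 1 : ℕ) : ℤ) + 1) = n - ((m : ℤ) + 3) := by push_cast; ring
        rw [this]; exact hn
      have h3 : psi (m + 1) (fun i => c (i + 1)) (n + 1) =
          kap (m + 1) (fun i => c (i + 1)) * F (m + 1) (fun i => c (i + 1)) (n + 1) := by
        apply psi_even
        have : n + 1 - (((m + 1 : ℕ) : ℤ) + 1) = (n - ((m : ℤ) + 3)) + 2 := by push_cast; ring
        rw [this]; exact hn.add even_two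
      have h4 : psi (m + 1) (fun i => c (i + 1)) n =
          kap m (fun i => c (i + 2)) * F m (fun i => c (i + 2)) n := by
        apply psi_odd
        rw [Int.not_even_iff_odd]
        have : n - ((m : ℤ) + 2) = (n - ((m : ℤ) + 3)) + 1 := by ring
        rw [this]; exact hn.add_odd odd_one
      rw [h1, h2, h3, h4, habs]
      simp only [kap, F]
      ring
    · rw [if_neg hn]
      have h1 : psi (m + 1 + 1) c n = kap (m + 1) (fun i => c (i + 1)) * F (m + 1) (fun i => c (i + 1)) n := by
        apply psi_odd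
        have : n - (((m + 1 : ℕ) : ℤ) + 2) = n - ((m : ℤ) + 3) := by push_cast; ring
        rw [this]; exact hn
      have h2 : psi (m + 1) (fun i => c (i + 1)) n =
          kap (m + 1) (fun i => c (i + 1)) * F (m + 1) (fun i => c (i + 1)) n := by
        apply psi_even
        rw [Int.not_even_iff_odd] at hn
        have : n - (((m + 1 : ℕ) : ℤ) + 1) = (n - ((m : ℤ) + 3)) + 1 := by push_cast; ring
        rw [this]; exact hn.add_odd odd_one
      rw [h1, h2]

/-- all interleaved sequences belong to the invariant class -/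
theorem psi_cls (m : ℕ) (c : ℕ → ℤ) (hc : ∀ i, c i ≠ 0) : Cls (m + 1) (psi m c) := by
  induction m generalizing c with
  | zero => simpa [psi] using delta_cls
  | succ m ih =>
    obtain ⟨s, hs, hstep⟩ := psi_step m c hc
    rw [hstep]
    have h1 := ih (fun i => c (i + 1)) (fun i => hc _)
    have h2 := cls_step h1 (b := |c 0|) (s := s) (Int.one_le_abs (hc 0)) hs
    have e1 : (((m + 1 : ℕ) : ℤ) + 1) = (m : ℤ) + 1 + 1 := by push_cast; ring
    have e2 : ((m : ℤ) + 2) = (m : ℤ) + 1 + 1 := by ring
    rw [e1, e2]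
    exact h2

/-! ### coefficients of the determinants -/

/-- coefficients of `D (-t)` indexed by the integers -/
def ecoef : ℕ → (ℕ → ℤ) → ℤ → ℤ
  | 0, _ => fun p => if p = 0 then 1 else 0
  | 1, c => fun p => c 0 * ((if p = 0 then 1 else 0) + (if p - 1 = 0 then 1 else 0))
  | m + 2, c => fun p => c 0 * (ecoef (m + 1) (fun i => c (i + 1)) p + ecoef (m + 1) (fun i => c (i + 1)) (p - 1)) -
      ecoef m (fun i => c (i + 2)) (p - 1)

lemma ecoef_neg (m : ℕ) (c : ℕ → ℤ) (p : ℤ) (hp : p < 0) : ecoef m c p = 0 := by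
  induction m using Nat.strong_induction_on generalizing c p with
  | _ m ih =>
    match m with
    | 0 => simp only [ecoef]; rw [if_neg (by omega)]
    | 1 => simp only [ecoef]; rw [if_neg (by omega), if_neg (by omega)]; ring
    | m + 2 =>
      simp only [ecoef]
      rw [ih (m + 1) (by omega) _ p hp, ih (m + 1) (by omega) _ (p - 1) (by omega),
        ih m (by omega) _ (p - 1) (by omega)]
      ring

lemma ecoef_symm (m : ℕ) (c : ℕ → ℤ) (p : ℤ) : ecoef m c (m - p) = ecoef m c p := by
  induction m using Nat.strong_induction_on generalizing c p with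
  | _ m ih =>
    match m with
    | 0 =>
      simp only [ecoef, Nat.cast_zero, zero_sub, neg_eq_zero]
    | 1 =>
      simp only [ecoef, Nat.cast_one]
      have e1 : (1 - p = 0) ↔ (p - 1 = 0) := by omega
      have e2 : (1 - p - 1 = 0) ↔ (p = 0) := by omega
      simp only [e1, e2]
      ring
    | m + 2 =>
      simp only [ecoef]
      have h1 := ih (m + 1) (by omega) (fun i => c (i + 1)) (p - 1)
      have h2 := ih (m + 1) (by omega) (fun i => c (i + 1)) p
      have h3 := ih m (by omega) (fun i => c (i + 2)) (p - 1)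
      have e1 : ((m + 1 : ℕ) : ℤ) - (p - 1) = ((m + 2 : ℕ) : ℤ) - p := by push_cast; ring
      have e2 : ((m + 1 : ℕ) : ℤ) - p = ((m + 2 : ℕ) : ℤ) - p - 1 := by push_cast; ring
      have e3 : (m : ℤ) - (p - 1) = ((m + 2 : ℕ) : ℤ) - p - 1 := by push_cast; ring
      rw [e1] at h1
      rw [e2] at h2
      rw [e3] at h3
      rw [h1, h2, h3]
      ring

lemma F_ecoef (m : ℕ) (c : ℕ → ℤ) (p : ℤ) : F m c (m + 1 - 2 * p) = ecoef m c p - ecoef m c (p - 1) := by
  induction m using Nat.strong_induction_on generalizing c p with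
  | _ m ih =>
    match m with
    | 0 =>
      simp only [F, ecoef, delta, Nat.cast_zero, zero_add]
      split_ifs <;> omega
    | 1 =>
      simp only [F, ecoef, delta, Nat.cast_one]
      have : ((if (1:ℤ) + 1 - 2 * p - 1 = 1 then (1:ℤ) else if (1:ℤ) + 1 - 2 * p - 1 = -1 then -1 else 0) +
          if (1:ℤ) + 1 - 2 * p + 1 = 1 then 1 else if (1:ℤ) + 1 - 2 * p + 1 = -1 then -1 else 0) =
          ((if p = 0 then (1:ℤ) else 0) + if p - 1 = 0 then 1 else 0) -
          ((if p - 1 = 0 then (1:ℤ) else 0) + if p - 1 - 1 = 0 then 1 else 0) := by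
        split_ifs <;> omega
      rw [this]
      ring
    | m + 2 =>
      simp only [F, ecoef]
      have h1 := ih (m + 1) (by omega) (fun i => c (i + 1)) p
      have h2 := ih (m + 1) (by omega) (fun i => c (i + 1)) (p - 1)
      have h3 := ih m (by omega) (fun i => c (i + 2)) (p - 1)
      have e1 : ((m + 1 : ℕ) : ℤ) + 1 - 2 * p = ((m + 2 : ℕ) : ℤ) + 1 - 2 * p - 1 := by push_cast; ring
      have e2 : ((m + 1 : ℕ) : ℤ) + 1 - 2 * (p - 1) = ((m + 2 : ℕ) : ℤ) + 1 - 2 * p + 1 := by push_cast; ring
      have e3 : (m : ℤ) + 1 - 2 * (p - 1) = ((m + 2 : ℕ) : ℤ) + 1 - 2 * p := by push_cast; ring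
      rw [e1] at h1
      rw [e2] at h2
      rw [e3] at h3
      rw [h1, h2, h3]
      ring

lemma coeff_det (m : ℕ) (c : ℕ → ℤ) (i : ℕ) : (tri m c).det.coeff i = (-1) ^ i * ecoef m c i := by
  induction m using Nat.strong_induction_on generalizing c i with
  | _ m ih =>
    match m with
    | 0 =>
      rw [det_zero, coeff_one]
      simp only [ecoef]
      by_cases hi : i = 0
      · subst hi; simp
      · rw [if_neg hi, if_neg (by exact_mod_cast hi)]; ring
    | 1 =>
      rw [det_one, coeff_C_mul, coeff_sub, coeff_one, coeff_X]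
      simp only [ecoef]
      rcases i with _ | _ | i
      · simp
      · simp
      · simp only [Nat.cast_add, Nat.cast_one]
        rw [if_neg (by omega), if_neg (by omega), if_neg (by omega), if_neg (by omega)]
        ring
    | m + 2 =>
      rw [det_rec]
      have e0 : C (c 0) * (1 - X) * (tri (m + 1) (fun i => c (i + 1))).det + X * (tri m (fun i => c (i + 2))).det =
          C (c 0) * ((tri (m + 1) (fun i => c (i + 1))).det - X * (tri (m + 1) (fun i => c (i + 1))).det) +
          X * (tri m (fun i => c (i + 2))).det := by ring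
      rw [e0, coeff_add, coeff_C_mul, coeff_sub]
      rcases i with _ | i
      · rw [coeff_X_mul_zero, coeff_X_mul_zero, ih (m + 1) (by omega)]
        simp only [ecoef, Nat.cast_zero, pow_zero, one_mul, sub_zero, add_zero]
        rw [ecoef_neg _ _ (0 - 1) (by norm_num), ecoef_neg _ _ (0 - 1) (by norm_num)]
        ring
      · rw [coeff_X_mul, coeff_X_mul, ih (m + 1) (by omega), ih (m + 1) (by omega), ih m (by omega)]
        simp only [ecoef]
        have e1 : ((i + 1 : ℕ) : ℤ) - 1 = (i : ℤ) := by push_cast; ring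
        rw [e1]
        ring

end Pool.Agent.Helper89.TwoBridge
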