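import Pool.Agent.Helper89.TwoBridge.Det

/-!
The shape of the coefficient sequence of the Alexander polynomial of a two-bridge knot.
-/

set_option autoImplicit false

open Polynomial

namespace Pool.Agent.Helper89.TwoBridge

lemma shape (n : ℕ) (u : ℕ → ℤ) (hu0 : ∀ j, 0 ≤ u j)
    (hfull : ∀ j l, j ≤ l → u j * u (l + 1) ≤ u (j + 1) * u l) :
    ∃ k ≤ n, (∀ j, j + 1 ≤ k → u j ≤ u (j + 1)) ∧ (∀ l, k ≤ l → l + 1 ≤ n → u (l + 1) ≤ u l) := by
  classical
  by_cases h : ∃ k, k < n ∧ u (k + 1) < u k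
  · refine ⟨Nat.find h, (Nat.find_spec h).1.le, ?_, ?_⟩
    · intro j hj
      have h1 := Nat.find_min h (m := j) (by omega)
      push Not at h1
      exact h1 (lt_of_lt_of_le (by omega) (Nat.find_spec h).1.le)
    · intro l hl _
      obtain ⟨k, hk⟩ : ∃ k, k = Nat.find h := ⟨_, rfl⟩
      have h2 := (Nat.find_spec h).2
      rw [← hk] at h2 hl
      have h3 := hfull k l hl
      have h4 : 0 < u k := lt_of_le_of_lt (hu0 (k + 1)) h2
      have h5 : u k * u (l + 1) ≤ u k * u l :=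
        h3.trans (mul_le_mul_of_nonneg_right h2.le (hu0 l))
      exact le_of_mul_le_mul_left h5 h4
  · push Not at h
    refine ⟨n, le_refl n, fun j hj => h j (by omega), fun l hl hl' => by omega⟩

/-- the extension of a finite sequence by ones -/
def ext (m : ℕ) (c : Fin m → ℤ) (i : ℕ) : ℤ := if h : i < m then c ⟨i, h⟩ else 1

lemma ext_ne (m : ℕ) (c : Fin m → ℤ) (hc : ∀ i, c i ≠ 0) (i : ℕ) : ext m c i ≠ 0 := by
  unfold ext
  split_ifs with h
  · exact hc _
  · norm_num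

lemma ext_eq (m : ℕ) (c : Fin m → ℤ) : (fun i : Fin m => ext m c i) = c := by
  funext i
  unfold ext
  rw [dif_pos i.2]

theorem knot_shape (n : ℕ) (c : Fin (2 * n) → ℤ) (hc : ∀ i, c i ≠ 0) :
    ∃ (a : ℕ → ℤ) (ε : ℤ), (ε = 1 ∨ ε = -1) ∧ (∀ i ≤ n, 0 < a i) ∧ (∀ i, n < i → a i = 0) ∧
      (∀ i ≤ n, (alexander (seifert c)).coeff (n + i) = ε * (-1) ^ i * a i ∧
        (alexander (seifert c)).coeff (n - i) = ε * (-1) ^ i * a i) ∧
      (alexander (seifert c)).natDegree = 2 * n ∧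
      (∀ i, 0 ≤ a i - a (i + 1)) ∧
      (∀ i j, i ≤ j → (a i - a (i + 1)) * (a (j + 1) - a (j + 2)) ≤
        (a (i + 1) - a (i + 2)) * (a j - a (j + 1))) := by
  obtain ⟨c', hc'⟩ : ∃ c', c' = ext (2 * n) c := ⟨_, rfl⟩
  have hne : ∀ i, c' i ≠ 0 := by rw [hc']; exact ext_ne _ c hc
  have hg : Good (((2 * n : ℕ) : ℤ) + 1) (psi (2 * n) c') := (psi_cls (2 * n) c' hne).good
  have hD : alexander (seifert c) = (tri (2 * n) c').det := by
    rw [← alexander_eq, hc', ext_eq]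
  rw [hD]
  obtain ⟨κ, hκ⟩ : ∃ κ, κ = kap (2 * n) c' := ⟨_, rfl⟩
  have hκ2 : κ = 1 ∨ κ = -1 := by rw [hκ]; exact kap_sq _ _ hne
  have hκκ : κ * κ = 1 := by rcases hκ2 with h | h <;> rw [h] <;> norm_num
  obtain ⟨a, ha⟩ : ∃ a : ℕ → ℤ, a = fun i : ℕ => κ * ecoef (2 * n) c' ((n : ℤ) - i) := ⟨_, rfl⟩
  have hai : ∀ i : ℕ, a i = κ * ecoef (2 * n) c' ((n : ℤ) - i) := fun i => by rw [ha]
  have hdiff : ∀ i : ℕ, a i - a (i + 1) = psi (2 * n) c' (2 * i + 1) := by
    intro i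
    rw [hai, hai, psi_even (2 * n) c' (n := 2 * i + 1) ⟨(i : ℤ) - n, by push_cast; ring⟩, ← hκ]
    have h1 := F_ecoef (2 * n) c' ((n : ℤ) - i)
    have e1 : (((2 * n : ℕ) : ℤ) + 1 - 2 * ((n : ℤ) - i)) = 2 * i + 1 := by push_cast; ring
    rw [e1] at h1
    rw [h1]
    have e2 : (n : ℤ) - ((i + 1 : ℕ) : ℤ) = (n : ℤ) - i - 1 := by push_cast; ring
    rw [e2]
    ring
  have hvan : ∀ i, n < i → a i = 0 := by
    intro i hi
    rw [hai, ecoef_neg _ _ _ (by omega), mul_zero]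
  have hnn : ∀ i : ℕ, 0 ≤ a i - a (i + 1) := by
    intro i
    rw [hdiff]
    exact hg.nonneg _ (by positivity)
  have hpos_n : 0 < a n := by
    have h1 := hdiff n
    rw [hvan (n + 1) (by omega), sub_zero] at h1
    rw [h1]
    have h2 := hg.top
    have e1 : (((2 * n : ℕ) : ℤ) + 1) = 2 * (n : ℤ) + 1 := by push_cast; ring
    rw [e1] at h2
    exact h2
  have hpos : ∀ i ≤ n, 0 < a i := by
    intro i hi
    obtain ⟨d, hd⟩ : ∃ d, n = i + d := ⟨n - i, by omega⟩
    have h1 : ∀ d, a (i + d) ≤ a i := by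
      intro d
      induction d with
      | zero => exact le_refl _
      | succ d ih =>
        have := hnn (i + d)
        have e1 : i + (d + 1) = i + d + 1 := by ring
        rw [e1]
        linarith
    have h2 := h1 d
    rw [← hd] at h2
    linarith
  have hcoef : ∀ i : ℕ, ((tri (2 * n) c').det).coeff i = (-1) ^ i * ecoef (2 * n) c' i := coeff_det (2 * n) c'
  have hnp : (-1 : ℤ) ^ n * (-1) ^ n = 1 := by
    rw [← mul_pow]; norm_num
  refine ⟨a, (-1) ^ n * κ, ?_, hpos, hvan, ?_, ?_, hnn, ?_⟩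
  · rcases neg_one_pow_eq_or ℤ n with h | h <;> rcases hκ2 with h' | h' <;> rw [h, h'] <;> norm_num
  · intro i hi
    have h1 : ecoef (2 * n) c' ((n : ℤ) - i) = κ * a i := by
      rw [hai, ← mul_assoc, hκκ, one_mul]
    constructor
    · rw [hcoef]
      have h2 := ecoef_symm (2 * n) c' ((n : ℤ) - i)
      have e1 : (((2 * n : ℕ) : ℤ) - ((n : ℤ) - i)) = ((n + i : ℕ) : ℤ) := by push_cast; ring
      rw [e1, h1] at h2
      rw [h2, pow_add]
      ring
    · rw [hcoef]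
      have e1 : (((n - i : ℕ)) : ℤ) = (n : ℤ) - i := by
        rw [Nat.cast_sub hi]
      rw [e1, h1]
      have e2 : (-1 : ℤ) ^ (n - i) = (-1) ^ n * (-1) ^ i := by
        have h3 : (-1 : ℤ) ^ n = (-1) ^ (n - i) * (-1) ^ i := by
          rw [← pow_add]; congr 1; omega
        have h4 : (-1 : ℤ) ^ i * (-1) ^ i = 1 := by rw [← mul_pow]; norm_num
        rw [h3, mul_assoc, h4, mul_one]
      rw [e2]
      ring
  · apply Polynomial.natDegree_eq_of_le_of_coeff_ne_zero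
    · rw [Polynomial.natDegree_le_iff_coeff_eq_zero]
      intro N hN
      rw [hcoef]
      have h2 := ecoef_symm (2 * n) c' (N : ℤ)
      rw [ecoef_neg _ _ _ (by push_cast; omega)] at h2
      rw [← h2, mul_zero]
    · rw [hcoef]
      have h2 := ecoef_symm (2 * n) c' (0 : ℤ)
      rw [sub_zero] at h2
      rw [h2]
      have h3 : ecoef (2 * n) c' 0 = κ * a n := by
        rw [hai, ← mul_assoc, hκκ, one_mul, sub_self]
      rw [h3]
      have h4 : κ ≠ 0 := by rcases hκ2 with h | h <;> rw [h] <;> norm_num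
      exact mul_ne_zero (pow_ne_zero _ (by norm_num)) (mul_ne_zero h4 hpos_n.ne')
  · intro i j hij
    have h1 : a (j + 1) - a (j + 2) = psi (2 * n) c' (2 * j + 1 + 2) := by
      have := hdiff (j + 1)
      have e1 : j + 1 + 1 = j + 2 := by ring
      rw [e1] at this
      rw [this]
      congr 1
    have h2 : a (i + 1) - a (i + 2) = psi (2 * n) c' (2 * i + 1 + 2) := by
      have := hdiff (i + 1)
      have e1 : i + 1 + 1 = i + 2 := by ring
      rw [e1] at this
      rw [this]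
      congr 1
    rw [h1, h2, hdiff i, hdiff j]
    exact hg.full (by positivity) (by
      have : (i : ℤ) ≤ j := by exact_mod_cast hij
      linarith)

/-- the concave-convex shape -/
theorem knot_concave_convex (n : ℕ) (c : Fin (2 * n) → ℤ) (hc : ∀ i, c i ≠ 0) :
    ∃ (a : ℕ → ℤ) (ε : ℤ) (k : ℕ), (ε = 1 ∨ ε = -1) ∧ (∀ i ≤ n, 0 < a i) ∧
      (∀ i ≤ n, (alexander (seifert c)).coeff (n + i) = ε * (-1) ^ i * a i ∧
        (alexander (seifert c)).coeff (n - i) = ε * (-1) ^ i * a i) ∧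
      (alexander (seifert c)).natDegree = 2 * n ∧ k ≤ n ∧
      (∀ i, 1 ≤ i → i + 1 ≤ k → a (i - 1) + a (i + 1) ≤ 2 * a i) ∧
      (∀ i, k + 1 ≤ i → i + 1 ≤ n → 2 * a i ≤ a (i - 1) + a (i + 1)) := by
  obtain ⟨a, ε, hε, hpos, hvan, hcoef, hdeg, hnn, hfull⟩ := knot_shape n c hc
  obtain ⟨k, hk, h1, h2⟩ := shape n (fun i => a i - a (i + 1)) hnn
    (fun j l hjl => by simpa using hfull j l hjl)
  refine ⟨a, ε, k, hε, hpos, hcoef, hdeg, hk, ?_, ?_⟩
  · intro i hi hik
    have h3 := h1 (i - 1) (by omega)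
    have e1 : i - 1 + 1 = i := by omega
    simp only [e1] at h3
    linarith
  · intro i hi hin
    have h3 := h2 (i - 1) (by omega) (by omega)
    have e1 : i - 1 + 1 = i := by omega
    simp only [e1] at h3
    linarith

end Pool.Agent.Helper89.TwoBridge
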